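import Pool.Agent.V8H87.MB.Delta

/-!
# The numbers `Δ` in extensions
-/

set_option autoImplicit false

open scoped Classical

namespace Pool.Agent.V8H87.MB

open Module NumberField

/-- `K` contains a CM field -/
def HasCM (K : Type) [Field K] : Prop :=
  ∃ (T : Type) (_ : Field T) (_ : NumberField T), IsCMField T ∧ Nonempty (T →+* K)

/-- `x` is a value of the number `Δ_K` of a totally complex number field `K`. Let `K_0` be the
maximal totally real subfield. If `K` contains a CM field, the maximal one is `K_1 = K_0(√D)` with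
a totally negative `D ∈ K_0`, and `Δ_K = √(N_{K_0/ℚ} D) ^ [K : K_1]`, where
`[K : K_1] = [K : K_0] / 2`. Otherwise `Δ_K = 1`. -/
def IsDelta (K : Type) [Field K] [NumberField K] (x : ℂ) : Prop :=
  (∃ (D : maximalRealSubfield K) (δ : K) (y : ℂ),
    (∀ σ : maximalRealSubfield K →+* ℂ, ∃ t : ℝ, t < 0 ∧ σ D = t) ∧ δ ^ 2 = (D : K) ∧
      y ^ 2 = ((Algebra.norm ℚ D : ℚ) : ℂ) ∧ x = y ^ (finrank (maximalRealSubfield K) K / 2)) ∨
  (¬ HasCM K ∧ x = 1)

section

variable {K : Type} [Field K] [NumberField K]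

lemma PI_of_sq {D : maximalRealSubfield K} {δ : K}
    (hD : ∀ σ : maximalRealSubfield K →+* ℂ, ∃ t : ℝ, t < 0 ∧ σ D = t) (hδ : δ ^ 2 = (D : K)) :
    PI δ := by
  have key : ∀ σ : K →+* ℂ, ∃ t : ℝ, t < 0 ∧ (σ δ) ^ 2 = t := by
    intro σ
    obtain ⟨t, ht, h⟩ := hD (σ.comp (algebraMap (maximalRealSubfield K) K))
    refine ⟨t, ht, ?_⟩
    rw [← map_pow, hδ, ← h]
    rfl
  constructor
  · intro h
    obtain ⟨σ⟩ : Nonempty (K →+* ℂ) := inferInstance
    obtain ⟨t, ht, h1⟩ := key σ
    rw [h, map_zero, zero_pow two_ne_zero] at h1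
    have : t = 0 := by exact_mod_cast h1.symm
    exact ht.ne this
  · intro σ
    obtain ⟨t, ht, h1⟩ := key σ
    have h2 : (star (σ δ)) ^ 2 = (σ δ) ^ 2 := by
      rw [← star_pow, h1]
      exact Complex.conj_ofReal t
    rcases sq_eq_sq_iff_eq_or_eq_neg.1 h2 with h3 | h3
    · exfalso
      have h4 : ((σ δ).re : ℂ) = σ δ := Complex.conj_eq_iff_re.1 h3
      rw [← h4] at h1
      have h5 : (σ δ).re ^ 2 = t := by exact_mod_cast h1
      nlinarith [sq_nonneg (σ δ).re]
    · exact h3

lemma exists_PI_of_hasCM {K : Type} [Field K] (h : HasCM K) : ∃ δ : K, PI δ := by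
  obtain ⟨T, _, _, _, ⟨f⟩⟩ := h
  obtain ⟨x, hx⟩ : ∃ x : T, IsCMField.complexConj T x ≠ x := by
    by_contra h1
    push Not at h1
    exact IsCMField.complexConj_ne_one T (AlgEquiv.ext h1)
  refine ⟨f (IsCMField.complexConj T x - x), ?_, ?_⟩
  · exact (map_ne_zero f).2 (sub_ne_zero.2 hx)
  · intro σ
    have h1 := IsCMField.complexEmbedding_complexConj T (σ.comp f) x
    rw [RingHom.comp_apply, RingHom.comp_apply] at h1
    rw [map_sub, map_sub, h1, star_sub, neg_sub]
    congr 1
    exact star_star _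

lemma hasCM_of_PI {δ : K} (h : PI δ) : HasCM K := by
  have hint : IsIntegral (maximalRealSubfield K) δ := Algebra.IsIntegral.isIntegral δ
  have hdeg : (minpoly (maximalRealSubfield K) δ).natDegree = 2 := by
    apply le_antisymm
    · have h1 : minpoly (maximalRealSubfield K) δ ∣ Polynomial.X ^ 2 -
          Polynomial.C (⟨δ ^ 2, h.sq_mem⟩ : maximalRealSubfield K) := by
        apply minpoly.dvd
        rw [map_sub, map_pow, Polynomial.aeval_X, Polynomial.aeval_C]
        exact sub_self _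
      have h2 := Polynomial.natDegree_le_of_dvd h1
        (Polynomial.X_pow_sub_C_ne_zero two_pos _)
      rwa [Polynomial.natDegree_X_pow_sub_C] at h2
    · rw [minpoly.two_le_natDegree_iff hint]
      rintro ⟨z, hz⟩
      obtain ⟨σ⟩ : Nonempty (K →+* ℂ) := inferInstance
      have h1 := z.2 σ
      have h2 := h.2 σ
      have h3 : (z : K) = δ := hz
      rw [h3, h2] at h1
      have h4 : σ δ = 0 := by
        have h5 : (2 : ℂ) * σ δ = 0 := by linear_combination -h1
        exact (mul_eq_zero.1 h5).resolve_left two_ne_zero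
      exact h.1 ((map_eq_zero σ).1 h4)
  have hfin : finrank (maximalRealSubfield K) (IntermediateField.adjoin (maximalRealSubfield K) {δ})
      = 2 := by
    rw [IntermediateField.adjoin.finrank hint, hdeg]
  have hquad : Algebra.IsQuadraticExtension (maximalRealSubfield K)
      (IntermediateField.adjoin (maximalRealSubfield K) {δ}) := ⟨hfin⟩
  have hnf : NumberField (IntermediateField.adjoin (maximalRealSubfield K) {δ}) := inferInstance
  have hcx : IsTotallyComplex (IntermediateField.adjoin (maximalRealSubfield K) {δ}) := by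
    constructor
    intro v
    rw [← InfinitePlace.not_isReal_iff_isComplex]
    intro hv
    have h1 : ComplexEmbedding.IsReal v.embedding := InfinitePlace.isReal_iff.1 hv
    letI := v.embedding.toAlgebra
    have halg : Algebra.IsAlgebraic (IntermediateField.adjoin (maximalRealSubfield K) {δ}) K :=
      inferInstance
    obtain ⟨σ⟩ : Nonempty (K →ₐ[IntermediateField.adjoin (maximalRealSubfield K) {δ}] ℂ) :=
      ⟨IsAlgClosed.lift⟩
    have h2 := h.2 (σ : K →+* ℂ)
    have hmem : δ ∈ IntermediateField.adjoin (maximalRealSubfield K) {δ} :=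
      IntermediateField.subset_adjoin _ _ (Set.mem_singleton δ)
    have h3 : (σ : K →+* ℂ) δ = v.embedding ⟨δ, hmem⟩ :=
      σ.commutes (⟨δ, hmem⟩ : IntermediateField.adjoin (maximalRealSubfield K) {δ})
    have h4 := RingHom.congr_fun h1 ⟨δ, hmem⟩
    change star (v.embedding ⟨δ, hmem⟩) = v.embedding ⟨δ, hmem⟩ at h4
    rw [h3, h4] at h2
    have h5 : v.embedding ⟨δ, hmem⟩ = 0 := by
      have h5 : (2 : ℂ) * v.embedding ⟨δ, hmem⟩ = 0 := by linear_combination h2
      exact (mul_eq_zero.1 h5).resolve_left two_ne_zero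
    have h6 := (map_eq_zero v.embedding).1 h5
    exact h.1 (congrArg Subtype.val h6)
  exact ⟨IntermediateField.adjoin (maximalRealSubfield K) {δ}, inferInstance, hnf,
    IsCMField.ofCMExtension (maximalRealSubfield K) _,
    ⟨(IntermediateField.adjoin (maximalRealSubfield K) {δ}).val.toRingHom⟩⟩

end

section Ext

variable {F K : Type} [Field F] [Field K] [NumberField F] [NumberField K] [Algebra F K]

/-- the inclusion of the maximal real subfields -/
def mrs (F K : Type) [Field F] [Field K] [NumberField F] [NumberField K] [Algebra F K] :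
    maximalRealSubfield F →+* maximalRealSubfield K :=
  ((algebraMap F K).comp (maximalRealSubfield F).subtype).codRestrict (maximalRealSubfield K)
    (fun x σ => x.2 (σ.comp (algebraMap F K)))

/-- degrees and norms for the maximal real subfields -/
lemma exists_deg (F K : Type) [Field F] [Field K] [NumberField F] [NumberField K] [Algebra F K] :
    ∃ r : ℕ, r * finrank (maximalRealSubfield K) K = finrank (maximalRealSubfield F) F * finrank F K ∧
      ∀ d : maximalRealSubfield F, Algebra.norm ℚ (mrs F K d) = (Algebra.norm ℚ d) ^ r := by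
  letI := (mrs F K).toAlgebra
  refine ⟨finrank (maximalRealSubfield F) (maximalRealSubfield K), ?_, ?_⟩
  · have h1 := finrank_mul_finrank ℚ (maximalRealSubfield F) (maximalRealSubfield K)
    have h2 := finrank_mul_finrank ℚ (maximalRealSubfield K) K
    have h3 := finrank_mul_finrank ℚ (maximalRealSubfield F) F
    have h4 := finrank_mul_finrank ℚ F K
    have h5 : 0 < finrank ℚ (maximalRealSubfield F) := finrank_pos
    apply Nat.eq_of_mul_eq_mul_left h5
    rw [← mul_assoc, h1, h2, ← mul_assoc, h3, h4]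
  · intro d
    have h1 : mrs F K d = algebraMap (maximalRealSubfield F) (maximalRealSubfield K) d := rfl
    rw [h1, ← Algebra.norm_norm (S := maximalRealSubfield F), Algebra.norm_algebraMap, map_pow]

/-- **The numbers `Δ` in an extension `K/F`** of totally complex number fields:
`Δ_K` and `Δ_F ^ [K : F]` differ by a rational factor. -/
theorem delta_ext [IsTotallyComplex F] {x x' : ℂ} (hx : IsDelta F x) (hx' : IsDelta K x') :
    ∃ q : ℚ, q ≠ 0 ∧ x' = (q : ℂ) * x ^ finrank F K := by
  have hK : IsTotallyComplex K := isTotallyComplex_of_algebra F K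
  rcases hx' with ⟨D', δ', y', hD', hδ', hy', hx'⟩ | ⟨hK0, hx'⟩
  · have hPI' := PI_of_sq hD' hδ'
    have hN' : Algebra.norm ℚ D' ≠ 0 := by
      rw [Algebra.norm_ne_zero_iff]
      intro h
      rw [h] at hδ'
      exact hPI'.1 (pow_eq_zero_iff two_ne_zero |>.1 hδ')
    rcases hx with ⟨D, δ, y, hD, hδ, hy, hx⟩ | ⟨hF0, hx⟩
    · -- both fields contain CM fields
      have hPI := PI_of_sq hD hδ
      have hPIK : PI (algebraMap F K δ) := hPI.map
      obtain ⟨u, hu⟩ : ∃ u : maximalRealSubfield K, (u : K) = δ' / algebraMap F K δ :=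
        ⟨⟨_, hPIK.div_mem hPI'⟩, rfl⟩
      have hD'u : D' = mrs F K D * u ^ 2 := by
        apply Subtype.ext
        change (D' : K) = algebraMap F K (D : F) * (u : K) ^ 2
        have h0 : (algebraMap F K δ) ^ 2 ≠ 0 := pow_ne_zero _ hPIK.1
        have e : algebraMap F K (D : F) = (algebraMap F K δ) ^ 2 := by rw [← map_pow, hδ]
        rw [e, hu, ← hδ', div_pow, mul_div_assoc', mul_comm, mul_div_cancel_right₀ _ h0]
      obtain ⟨r, hr, hnorm⟩ := exists_deg F K
      have hNu : Algebra.norm ℚ u ≠ 0 := by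
        intro h
        apply hN'
        rw [hD'u, map_mul, map_pow, h]
        simp
      have hy2 : y' ^ 2 = (y ^ r * ((Algebra.norm ℚ u : ℚ) : ℂ)) ^ 2 := by
        rw [hy', hD'u, map_mul, map_pow, hnorm, mul_pow, ← pow_mul, mul_comm r 2, pow_mul, hy]
        push_cast
        ring
      have hq : ∃ q : ℚ, q ≠ 0 ∧ y' = (q : ℂ) * y ^ r := by
        rcases sq_eq_sq_iff_eq_or_eq_neg.1 hy2 with h | h
        · exact ⟨Algebra.norm ℚ u, hNu, by rw [h, mul_comm]⟩
        · exact ⟨- Algebra.norm ℚ u, neg_ne_zero.2 hNu, by rw [h, mul_comm]; push_cast; ring⟩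
      obtain ⟨q, hq0, hq⟩ := hq
      refine ⟨q ^ (finrank (maximalRealSubfield K) K / 2), pow_ne_zero _ hq0, ?_⟩
      rw [hx', hx, hq, mul_pow, ← pow_mul, ← pow_mul]
      push_cast
      congr 2
      obtain ⟨a, ha⟩ := even_real (K := K)
      obtain ⟨b, hb⟩ := even_real (K := F)
      rw [ha, hb] at hr ⊢
      rw [Nat.mul_div_cancel_left _ two_pos, Nat.mul_div_cancel_left _ two_pos]
      have : 2 * (r * a) = 2 * (b * finrank F K) := by linarith
      exact Nat.eq_of_mul_eq_mul_left two_pos this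
    · -- `F` does not contain a CM field
      have h4 : 4 ∣ finrank (maximalRealSubfield K) K :=
        four_dvd (F := F) (fun δ h => hF0 (hasCM_of_PI h)) hPI'
      obtain ⟨c, hc⟩ := h4
      refine ⟨(Algebra.norm ℚ D') ^ c, pow_ne_zero _ hN', ?_⟩
      rw [hx, one_pow, mul_one, hx', hc]
      have : 4 * c / 2 = 2 * c := by omega
      rw [this, pow_mul, hy']
      push_cast
      rfl
  · rcases hx with ⟨D, δ, y, hD, hδ, hy, hx⟩ | ⟨hF0, hx⟩
    · exact absurd (hasCM_of_PI (PI_of_sq hD hδ).map) hK0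
    · exact ⟨1, one_ne_zero, by rw [hx, hx', one_pow]; simp⟩

lemma im_of_star {z : ℂ} (h : star z = -z) : z = (z.im : ℂ) * Complex.I := by
  have h1 := congrArg Complex.re h
  change z.re = (-z).re at h1
  rw [Complex.neg_re] at h1
  have h2 : z.re = 0 := by linarith
  apply Complex.ext
  · simp [h2]
  · simp

/-- values of `Δ` exist -/
lemma exists_delta (K : Type) [Field K] [NumberField K] : ∃ x, IsDelta K x := by
  by_cases h : HasCM K
  · obtain ⟨δ, hδ⟩ := exists_PI_of_hasCM h
    obtain ⟨y, hy⟩ : ∃ y : ℂ, y ^ 2 = ((Algebra.norm ℚ (⟨δ ^ 2, hδ.sq_mem⟩ :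
      maximalRealSubfield K) : ℚ) : ℂ) := IsAlgClosed.exists_pow_nat_eq _ two_pos
    refine ⟨_, Or.inl ⟨⟨δ ^ 2, hδ.sq_mem⟩, δ, y, fun σ => ?_, rfl, hy, rfl⟩⟩
    letI := σ.toAlgebra
    obtain ⟨φ⟩ : Nonempty (K →ₐ[maximalRealSubfield K] ℂ) := ⟨IsAlgClosed.lift⟩
    have h1 : σ ⟨δ ^ 2, hδ.sq_mem⟩ = ((φ : K →+* ℂ) δ) ^ 2 := by
      rw [← map_pow]
      exact (φ.commutes (⟨δ ^ 2, hδ.sq_mem⟩ : maximalRealSubfield K)).symm
    have h2 := hδ.2 (φ : K →+* ℂ)
    have h4 := im_of_star h2
    have h5 : ((φ : K →+* ℂ) δ).im ≠ 0 := by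
      intro h5
      rw [h5] at h4
      apply hδ.1
      apply (map_eq_zero (φ : K →+* ℂ)).1
      rw [h4]
      simp
    refine ⟨-(((φ : K →+* ℂ) δ).im ^ 2), ?_, ?_⟩
    · have := sq_pos_of_ne_zero (R := ℝ) h5
      linarith
    · rw [h1, h4, mul_pow, Complex.I_sq]
      push_cast
      simp
  · exact ⟨1, Or.inr ⟨h, rfl⟩⟩

end Ext

end Pool.Agent.V8H87.MB
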