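import Pool.Agent.V8H87.MB.Main
import Pool.Agent.V8H87.MB.Delta2

/-!
# Q1 for potentially abelian twists
-/

set_option autoImplicit false

open scoped Classical

namespace Pool.Agent.V8H87.MB

open Module NumberField

section Defs

/-- The equality of Q1 over the totally complex number field `K`, for a motive of rank `n` with
coefficients in `E` (a number field, or the union of all of them) with the values `a ι` and `b ι` of
the `L`-function `L(s, ι, M)` at `m` and `m + 1`: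
`a ι = ι(e) (𝔦 ^ (d_K / 2) Δ_K) ^ n b ι` for all embeddings `ι`, with one `e ∈ E^×`. -/
def Q1 (K : Type) [Field K] [NumberField K] (E : Type) [Field E] (n : ℕ) (a b : (E →+* ℂ) → ℂ) :
    Prop :=
  ∀ x : ℂ, IsDelta K x → ∃ e : E, e ≠ 0 ∧ ∀ ι : E →+* ℂ,
    a ι = ι e * (Complex.I ^ (finrank ℚ K / 2) * x) ^ n * b ι

variable {W : Type} [Group W] {G : Type} [Group G] (π : W →* G) {E : Type} [Field E]
  {V : Type} [AddCommGroup V] [Module (AlgebraicClosure E) V]
  (ρ : Representation (AlgebraicClosure E) W V)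

/-- `Gal(N / N^K)` is elementary and the restriction of `χ` to `N` occurs in `V` -/
def Occ (K : Subgroup W) (χ : K →* (AlgebraicClosure E)ˣ) : Prop :=
  Wt ρ π.ker K χ ∧ EB.Br.Elem (K.map π)

/-- The formalism of Artin for the values at one integer. -/
def Artin (a : (AlgebraicClosure E →+* ℂ) → (K : Subgroup W) → (K →* (AlgebraicClosure E)ˣ) → ℂ)
    (A : (E →+* ℂ) → ℂ) : Prop :=
  ∀ (I J : Type) [Fintype I] [Fintype J] (K : I → Subgroup W)
    (χ : ∀ i, K i →* (AlgebraicClosure E)ˣ) (K' : J → Subgroup W)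
    (χ' : ∀ j, K' j →* (AlgebraicClosure E)ˣ),
    (∀ i, Occ π ρ (K i) (χ i)) → (∀ j, Occ π ρ (K' j) (χ' j)) →
    (∀ w, LinearMap.trace (AlgebraicClosure E) V (ρ w) +
      ∑ i, Ind (K i) (fun k => (χ i k : AlgebraicClosure E)) w =
        ∑ j, Ind (K' j) (fun k => (χ' j k : AlgebraicClosure E)) w) →
    ∀ ι : AlgebraicClosure E →+* ℂ, A (ι.comp (algebraMap E (AlgebraicClosure E))) *
      ∏ i, a ι (K i) (χ i) = ∏ j, a ι (K' j) (χ' j)

end Defs

lemma IsDelta.ne_zero {K : Type} [Field K] [NumberField K] {x : ℂ} (h : IsDelta K x) : x ≠ 0 := by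
  rcases h with ⟨D, δ, y, hD, hδ, hy, hx⟩ | ⟨_, hx⟩
  · have hPI := PI_of_sq hD hδ
    rw [hx]
    apply pow_ne_zero
    intro h
    rw [h, zero_pow two_ne_zero] at hy
    have h1 : Algebra.norm ℚ D = 0 := by exact_mod_cast hy.symm
    rw [Algebra.norm_eq_zero_iff] at h1
    rw [h1] at hδ
    exact hPI.1 (pow_eq_zero_iff two_ne_zero |>.1 hδ)
  · rw [hx]
    exact one_ne_zero

lemma Ind_one {W : Type} [Group W] {Ω : Type} [Field Ω] (K : Subgroup W) [Finite (W ⧸ K)]
    (χ : K →* Ωˣ) : Ind K (fun k => (χ k : Ω)) 1 = (K.index : Ω) := by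
  have := Fintype.ofFinite (W ⧸ K)
  unfold Ind
  rw [finsum_eq_sum_of_fintype]
  have h1 : ∀ q : W ⧸ K, ex K (fun k => (χ k : Ω)) ((Quotient.out q : W)⁻¹ * 1 * Quotient.out q)
      = 1 := by
    intro q
    have h2 : (Quotient.out q : W)⁻¹ * 1 * Quotient.out q = 1 := by group
    rw [h2, ex_pos _ K.one_mem]
    have h3 : (⟨1, K.one_mem⟩ : K) = 1 := rfl
    rw [h3, map_one]
    rfl
  rw [Finset.sum_congr rfl fun q _ => h1 q, Finset.sum_const, Finset.card_univ,
    ← Nat.card_eq_fintype_card, nsmul_eq_mul, mul_one]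
  rfl

/-- from the span to families -/
lemma exists_families {W : Type} [Group W] {Ω : Type} [Field Ω]
    {P : (K : Subgroup W) → (K →* Ωˣ) → Prop} {f : W → Ω} (hf : f ∈ Sp P) :
    ∃ (I J : Type) (_ : Fintype I) (_ : Fintype J) (K : I → Subgroup W) (χ : ∀ i, K i →* Ωˣ)
      (K' : J → Subgroup W) (χ' : ∀ j, K' j →* Ωˣ), (∀ i, P (K i) (χ i)) ∧
      (∀ j, P (K' j) (χ' j)) ∧ ∀ w, f w + ∑ i, Ind (K i) (fun k => (χ i k : Ω)) w =
        ∑ j, Ind (K' j) (fun k => (χ' j k : Ω)) w := by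
  induction hf using AddSubgroup.closure_induction with
  | mem f hf =>
    obtain ⟨K, χ, hP, rfl⟩ := hf
    exact ⟨Empty, Unit, inferInstance, inferInstance, fun e => e.elim, fun e => e.elim, fun _ => K,
      fun _ => χ, fun e => e.elim, fun _ => hP, fun w => by simp⟩
  | zero =>
    exact ⟨Empty, Empty, inferInstance, inferInstance, fun e => e.elim, fun e => e.elim,
      fun e => e.elim, fun e => e.elim, fun e => e.elim, fun e => e.elim, fun w => by simp⟩
  | add f g _ _ hf hg =>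
    obtain ⟨I, J, _, _, K, χ, K', χ', h1, h2, h3⟩ := hf
    obtain ⟨I₁, J₁, _, _, L, ψ, L', ψ', g1, g2, g3⟩ := hg
    refine ⟨I ⊕ I₁, J ⊕ J₁, inferInstance, inferInstance, Sum.elim K L, fun i => match i with
      | Sum.inl i => χ i
      | Sum.inr i => ψ i, Sum.elim K' L', fun i => match i with
      | Sum.inl i => χ' i
      | Sum.inr i => ψ' i, ?_, ?_, ?_⟩
    · rintro (i | i)
      · exact h1 i
      · exact g1 i
    · rintro (i | i)
      · exact h2 i
      · exact g2 i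
    · intro w
      rw [Fintype.sum_sum_type, Fintype.sum_sum_type]
      have e1 := h3 w
      have e2 := g3 w
      change f w + g w + (∑ i, Ind (K i) (fun k => (χ i k : Ω)) w +
        ∑ i, Ind (L i) (fun k => (ψ i k : Ω)) w) = ∑ j, Ind (K' j) (fun k => (χ' j k : Ω)) w +
        ∑ j, Ind (L' j) (fun k => (ψ' j k : Ω)) w
      rw [← e1, ← e2]
      ring
  | neg f _ hf =>
    obtain ⟨I, J, _, _, K, χ, K', χ', h1, h2, h3⟩ := hf
    refine ⟨J, I, inferInstance, inferInstance, K', χ', K, χ, h2, h1, fun w => ?_⟩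
    rw [← h3 w, Pi.neg_apply]
    ring

section Main

variable {F N : Type} [Field F] [NumberField F] [IsTotallyComplex F] [Field N] [NumberField N]
  [Algebra F N] [IsGalois F N] {W : Type} [Group W] (π : W →* (N ≃ₐ[F] N))
  {E : Type} [Field E] [NumberField E] {V : Type} [AddCommGroup V]
  [Module (AlgebraicClosure E) V] [FiniteDimensional (AlgebraicClosure E) V]
  (ρ : Representation (AlgebraicClosure E) W V)

/-- the main theorem -/
theorem q1_main (hπ : Function.Surjective π) (hρ : Diag ρ π.ker)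
    (a b : (AlgebraicClosure E →+* ℂ) → (K : Subgroup W) → (K →* (AlgebraicClosure E)ˣ) → ℂ)
    (A B : (E →+* ℂ) → ℂ) (hA : Artin π ρ a A) (hB : Artin π ρ b B)
    (hne : ∀ ι K χ, Occ π ρ K χ → a ι K χ ≠ 0 ∧ b ι K χ ≠ 0) (n : ℕ)
    (hQ : ∀ K χ, Occ π ρ K χ → Q1 (IntermediateField.fixedField (K.map π)) (AlgebraicClosure E)
      n (fun ι => a ι K χ) (fun ι => b ι K χ)) :
    (∀ ι, A ι ≠ 0 ∧ B ι ≠ 0) ∧ Q1 F E (n * finrank (AlgebraicClosure E) V) A B := by
  have hfinG : Finite (N ≃ₐ[F] N) := inferInstance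
  have hkf : π.ker.FiniteIndex := by
    have : Finite (W ⧸ π.ker) :=
      Finite.of_injective _ (QuotientGroup.kerLift_injective π)
    exact Subgroup.finiteIndex_of_finite_quotient
  have hsp := brauer_rep ρ π hπ hρ
  obtain ⟨I, J, _, _, K, χ, K', χ', hP, hP', hid⟩ := exists_families hsp
  -- degrees
  have hdeg : ∀ (K : Subgroup W), π.ker ≤ K →
      finrank F (IntermediateField.fixedField (K.map π)) = K.index := by
    intro K hK
    rw [IntermediateField.finrank_eq_fixingSubgroup_index,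
      IntermediateField.fixingSubgroup_fixedField, Subgroup.index_map_eq K hπ hK]
  have hI1 : ∀ (K : Subgroup W) (χ : K →* (AlgebraicClosure E)ˣ), Occ π ρ K χ →
      Ind K (fun k => (χ k : AlgebraicClosure E)) 1 = (K.index : AlgebraicClosure E) := by
    intro K χ hK
    have : K.FiniteIndex := Subgroup.finiteIndex_of_le hK.1.choose
    have : Finite (W ⧸ K) := Subgroup.finite_quotient_of_finiteIndex
    exact Ind_one K χ
  have hdim : finrank (AlgebraicClosure E) V + ∑ i, (K i).index = ∑ j, (K' j).index := by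
    have h1 := hid 1
    rw [map_one, LinearMap.trace_one, Finset.sum_congr rfl fun i _ => hI1 (K i) (χ i) (hP i),
      Finset.sum_congr rfl fun j _ => hI1 (K' j) (χ' j) (hP' j)] at h1
    exact_mod_cast h1
  -- the extension of embeddings
  have hext : ∀ ι : E →+* ℂ, ∃ ι' : AlgebraicClosure E →+* ℂ,
      ι'.comp (algebraMap E (AlgebraicClosure E)) = ι := by
    intro ι
    letI : Algebra E ℂ := ι.toAlgebra
    exact ⟨(IsAlgClosed.lift : AlgebraicClosure E →ₐ[E] ℂ).toRingHom,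
      RingHom.ext fun x => (IsAlgClosed.lift : AlgebraicClosure E →ₐ[E] ℂ).commutes x⟩
  have hAeq := hA I J K χ K' χ' hP hP' hid
  have hBeq := hB I J K χ K' χ' hP hP' hid
  have hAne : ∀ ι, A ι ≠ 0 := by
    intro ι
    obtain ⟨ι', rfl⟩ := hext ι
    intro h
    have h1 := hAeq ι'
    rw [h, zero_mul] at h1
    exact Finset.prod_ne_zero_iff.2 (fun j _ => (hne ι' (K' j) (χ' j) (hP' j)).1) h1.symm
  have hBne : ∀ ι, B ι ≠ 0 := by
    intro ι
    obtain ⟨ι', rfl⟩ := hext ι
    intro h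
    have h1 := hBeq ι'
    rw [h, zero_mul] at h1
    exact Finset.prod_ne_zero_iff.2 (fun j _ => (hne ι' (K' j) (χ' j) (hP' j)).2) h1.symm
  refine ⟨fun ι => ⟨hAne ι, hBne ι⟩, ?_⟩
  intro x hx
  have hx0 := hx.ne_zero
  obtain ⟨c, hc⟩ : ∃ c : ℂ, c = Complex.I ^ (finrank ℚ F / 2) * x := ⟨_, rfl⟩
  have hc0 : c ≠ 0 := hc ▸ mul_ne_zero (pow_ne_zero _ Complex.I_ne_zero) hx0
  rw [← hc]
  -- each factor
  have hfac : ∀ (K : Subgroup W) (χ : K →* (AlgebraicClosure E)ˣ), Occ π ρ K χ →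
      ∃ e : AlgebraicClosure E, e ≠ 0 ∧ ∀ ι : AlgebraicClosure E →+* ℂ,
        a ι K χ = ι e * (c ^ K.index) ^ n * b ι K χ := by
    intro K χ hK
    obtain ⟨x', hx'⟩ := exists_delta (IntermediateField.fixedField (K.map π))
    obtain ⟨q, hq0, hq⟩ := delta_ext (F := F) hx hx'
    obtain ⟨e, he0, he⟩ := hQ K χ hK x' hx'
    refine ⟨e * (algebraMap ℚ (AlgebraicClosure E) q) ^ n, mul_ne_zero he0
      (pow_ne_zero _ ((map_ne_zero _).2 hq0)), fun ι => ?_⟩
    have h1 := he ι
    change a ι K χ = _ * b ι K χ at h1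
    have h2 : finrank ℚ (IntermediateField.fixedField (K.map π)) / 2 =
        finrank ℚ F / 2 * K.index := by
      rw [← finrank_mul_finrank ℚ F (IntermediateField.fixedField (K.map π)),
        hdeg K hK.1.choose]
      have h3 : finrank ℚ F = 2 * InfinitePlace.nrComplexPlaces F :=
        IsTotallyComplex.finrank F
      rw [h3, mul_assoc, Nat.mul_div_cancel_left _ two_pos, Nat.mul_div_cancel_left _ two_pos]
    have h4 : ι (algebraMap ℚ (AlgebraicClosure E) q) = (q : ℂ) := by simp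
    rw [hdeg K hK.1.choose] at hq
    rw [h1, h2, hq, map_mul, map_pow, h4, hc]
    rw [pow_mul]
    generalize Complex.I ^ (finrank ℚ F / 2) = z
    ring
  choose e he0 he using hfac
  -- the product
  set ε : AlgebraicClosure E := (∏ j, e (K' j) (χ' j) (hP' j)) / ∏ i, e (K i) (χ i) (hP i) with hε
  have hden : ∏ i, e (K i) (χ i) (hP i) ≠ 0 := Finset.prod_ne_zero_iff.2 fun i _ => he0 _ _ _
  have hε0 : ε ≠ 0 := div_ne_zero (Finset.prod_ne_zero_iff.2 fun i _ => he0 _ _ _) hden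
  have hfinal : ∀ ι : AlgebraicClosure E →+* ℂ,
      A (ι.comp (algebraMap E (AlgebraicClosure E))) =
        ι ε * c ^ (n * finrank (AlgebraicClosure E) V) *
          B (ι.comp (algebraMap E (AlgebraicClosure E))) := by
    intro ι
    have h1 := hAeq ι
    have h2 := hBeq ι
    have h3 : ∏ i, a ι (K i) (χ i) = ι (∏ i, e (K i) (χ i) (hP i)) * (c ^ (∑ i, (K i).index)) ^ n *
        ∏ i, b ι (K i) (χ i) := by
      rw [Finset.prod_congr rfl fun i _ => he (K i) (χ i) (hP i) ι, Finset.prod_mul_distrib,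
        Finset.prod_mul_distrib, map_prod, Finset.prod_pow, Finset.prod_pow_eq_pow_sum]
    have h4 : ∏ j, a ι (K' j) (χ' j) = ι (∏ j, e (K' j) (χ' j) (hP' j)) *
        (c ^ (∑ j, (K' j).index)) ^ n * ∏ j, b ι (K' j) (χ' j) := by
      rw [Finset.prod_congr rfl fun i _ => he (K' i) (χ' i) (hP' i) ι, Finset.prod_mul_distrib,
        Finset.prod_mul_distrib, map_prod, Finset.prod_pow, Finset.prod_pow_eq_pow_sum]
    rw [h3, h4, ← h2, ← hdim] at h1
    have hb0 : ∏ i, b ι (K i) (χ i) ≠ 0 :=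
      Finset.prod_ne_zero_iff.2 fun i _ => (hne ι _ _ (hP i)).2
    have hd0 : ι (∏ i, e (K i) (χ i) (hP i)) ≠ 0 := (map_ne_zero ι).2 hden
    have hcn0 : (c ^ (∑ i, (K i).index)) ^ n ≠ 0 := pow_ne_zero _ (pow_ne_zero _ hc0)
    have h5 : ι ε = ι (∏ j, e (K' j) (χ' j) (hP' j)) / ι (∏ i, e (K i) (χ i) (hP i)) := by
      rw [hε, map_div₀]
    rw [h5]
    generalize (∏ i, b ι (K i) (χ i)) = b₁ at h1 hb0
    generalize ι (∏ i, e (K i) (χ i) (hP i)) = d₁ at h1 hd0 ⊢
    generalize ι (∏ j, e (K' j) (χ' j) (hP' j)) = d₂ at h1 ⊢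
    rw [pow_add, mul_pow] at h1
    generalize (c ^ (∑ i, (K i).index)) ^ n = u at h1 hcn0
    rw [← pow_mul, mul_comm (finrank (AlgebraicClosure E) V) n] at h1
    generalize c ^ (n * finrank (AlgebraicClosure E) V) = v at h1 ⊢
    generalize A (ι.comp (algebraMap E (AlgebraicClosure E))) = A₁ at h1 ⊢
    generalize B (ι.comp (algebraMap E (AlgebraicClosure E))) = B₁ at h1 ⊢
    have h6 : (A₁ * d₁) * (u * b₁) = (d₂ * v * B₁) * (u * b₁) := by linear_combination h1
    have h7 := mul_right_cancel₀ (mul_ne_zero hcn0 hb0) h6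
    field_simp
    linear_combination h7
  -- descent
  obtain ⟨ι₀⟩ : Nonempty (E →+* ℂ) := inferInstance
  obtain ⟨ι₁, hι₁⟩ := hext ι₀
  have hfix : ∀ τ : AlgebraicClosure E ≃ₐ[E] AlgebraicClosure E, τ ε = ε := by
    intro τ
    have h1 := hfinal ι₁
    have h2 := hfinal (ι₁.comp (τ : AlgebraicClosure E →+* AlgebraicClosure E))
    have h3 : (ι₁.comp (τ : AlgebraicClosure E →+* AlgebraicClosure E)).comp
        (algebraMap E (AlgebraicClosure E)) = ι₀ := by
      rw [← hι₁]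
      ext y
      rw [RingHom.comp_apply, RingHom.comp_apply, RingHom.comp_apply]
      congr 1
      exact τ.commutes y
    rw [hι₁] at h1
    rw [h3, h1] at h2
    have h4 := mul_right_cancel₀ (hBne ι₀) h2
    have h5 := mul_right_cancel₀ (pow_ne_zero _ hc0) h4
    exact (ι₁.injective h5).symm
  obtain ⟨ε₀, hε₀⟩ := (InfiniteGalois.mem_range_algebraMap_iff_fixed ε).2 hfix
  refine ⟨ε₀, ?_, fun ι => ?_⟩
  · rintro rfl
    rw [map_zero] at hε₀
    exact hε0 hε₀.symm
  · obtain ⟨ι', hι'⟩ := hext ι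
    have h1 := hfinal ι'
    rw [hι', ← hε₀] at h1
    have h2 : ι' (algebraMap E (AlgebraicClosure E) ε₀) = ι ε₀ := RingHom.congr_fun hι' ε₀
    rw [h2] at h1
    exact h1

end Main

end Pool.Agent.V8H87.MB
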