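import Pool.Agent.V8H87.MB.Ind

/-!
# The trace of a representation with a system of blocks
-/

set_option autoImplicit false

open scoped Classical

namespace Pool.Agent.V8H87.MB

open Module

section

variable {W : Type} [Group W] {Ω : Type} [Field Ω] {V : Type} [AddCommGroup V] [Module Ω V]
  [FiniteDimensional Ω V] (ρ : Representation Ω W V)
  {X : Type} [Fintype X] [MulAction W X] (N : X → Submodule Ω V)

/-- projectors of an internal direct sum -/
lemma exists_proj [DecidableEq X] (hN : DirectSum.IsInternal N) : ∃ e : X → Module.End Ω V,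
    (∀ x v, e x v ∈ N x) ∧ (∑ x, e x = 1) ∧ (∀ x, ∀ v ∈ N x, e x v = v) ∧
    (∀ x y, x ≠ y → ∀ v ∈ N y, e x v = 0) := by
  letI := hN.chooseDecomposition
  refine ⟨fun x => (N x).subtype ∘ₗ (DirectSum.component Ω X (fun i => N i) x) ∘ₗ
    (DirectSum.decomposeLinearEquiv N).toLinearMap, ?_, ?_, ?_, ?_⟩
  · intro x v
    exact Subtype.mem _
  · ext v
    rw [LinearMap.sum_apply]
    conv_rhs => rw [Module.End.one_apply, ← DirectSum.sum_support_decompose N v]
    rw [← Finset.sum_subset (Finset.subset_univ (DirectSum.decompose N v).support)]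
    · rfl
    · intro x _ hx
      have : DirectSum.decompose N v x = 0 := by
        by_contra h
        exact hx (DFinsupp.mem_support_iff.2 h)
      change ((DirectSum.decompose N v x : N x) : V) = 0
      rw [this]
      rfl
  · intro x v hv
    exact DirectSum.decompose_of_mem_same N hv
  · intro x y hxy v hv
    exact DirectSum.decompose_of_mem_ne N hv (Ne.symm hxy)

variable (hmap : ∀ (w : W) x, ∀ v ∈ N x, ρ w v ∈ N (w • x))

/-- the representation of the stabiliser on a block -/
noncomputable def blk (x : X) : Representation Ω (MulAction.stabilizer W x) (N x) where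
  toFun s := (ρ (s : W)).restrict (p := N x) (q := N x) (fun v hv => by
    have := hmap s x v hv
    rwa [show (s : W) • x = x from s.2] at this)
  map_one' := by
    ext v
    change ρ ((1 : MulAction.stabilizer W x) : W) (v : V) = v
    rw [Subgroup.coe_one, map_one]
    rfl
  map_mul' s t := by
    ext v
    change ρ ((s * t : MulAction.stabilizer W x) : W) (v : V) = ρ (s : W) (ρ (t : W) v)
    rw [Subgroup.coe_mul, map_mul]
    rfl

lemma blk_apply (x : X) (s : MulAction.stabilizer W x) (v : N x) :
    ((blk ρ N hmap x s v : N x) : V) = ρ (s : W) v := rfl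

/-- sum over orbits -/
lemma sum_orb (F : X → Ω) : ∑ x, F x = ∑ ω : MulAction.orbitRel.Quotient W X,
    ∑ᶠ q : W ⧸ MulAction.stabilizer W (Quotient.out ω), F ((Quotient.out q : W) • Quotient.out ω) := by
  have hfin : ∀ ω : MulAction.orbitRel.Quotient W X,
      Finite (W ⧸ MulAction.stabilizer W (Quotient.out ω)) := fun ω =>
    Finite.of_equiv _ (MulAction.orbitEquivQuotientStabilizer W (Quotient.out ω))
  have := fun ω : MulAction.orbitRel.Quotient W X => Fintype.ofFinite (W ⧸ MulAction.stabilizer W (Quotient.out ω))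
  simp_rw [finsum_eq_sum_of_fintype]
  rw [← Fintype.sum_sigma' (fun (ω : MulAction.orbitRel.Quotient W X)
    (q : W ⧸ MulAction.stabilizer W (Quotient.out ω)) => F ((Quotient.out q : W) • Quotient.out ω))]
  symm
  refine Fintype.sum_bijective (fun p : (Σ ω : MulAction.orbitRel.Quotient W X,
    W ⧸ MulAction.stabilizer W (Quotient.out ω)) =>
      (Quotient.out p.2 : W) • Quotient.out p.1) ?_ _ _ (fun _ => rfl)
  constructor
  · rintro ⟨ω, q⟩ ⟨ω', q'⟩ h
    change (Quotient.out q : W) • Quotient.out ω = (Quotient.out q' : W) • Quotient.out ω' at h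
    have h1 : ω = ω' := by
      rw [← Quotient.out_eq ω, ← Quotient.out_eq ω']
      apply Quotient.sound
      refine ⟨(Quotient.out q : W)⁻¹ * Quotient.out q', ?_⟩
      change ((Quotient.out q : W)⁻¹ * Quotient.out q') • Quotient.out ω' = _
      rw [mul_smul, ← h, inv_smul_smul]
    subst h1
    have h2 : q = q' := by
      rw [← QuotientGroup.out_eq' q, ← QuotientGroup.out_eq' q', QuotientGroup.eq]
      change ((Quotient.out q : W)⁻¹ * Quotient.out q') • Quotient.out ω = _
      rw [mul_smul, ← h, inv_smul_smul]
    rw [h2]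
  · intro x
    have h1 : (MulAction.orbitRel W X) x (Quotient.out (Quotient.mk (MulAction.orbitRel W X) x)) :=
      (MulAction.orbitRel W X).symm (Quotient.mk_out (s := MulAction.orbitRel W X) x)
    obtain ⟨t, ht⟩ := h1
    change t • Quotient.out (Quotient.mk (MulAction.orbitRel W X) x) = x at ht
    refine ⟨⟨Quotient.mk (MulAction.orbitRel W X) x, (t : W ⧸ _)⟩, ?_⟩
    change (Quotient.out (t : W ⧸ MulAction.stabilizer W (Quotient.out
      (Quotient.mk (MulAction.orbitRel W X) x))) : W) •
      Quotient.out (Quotient.mk (MulAction.orbitRel W X) x) = x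
    conv_rhs => rw [← ht]
    have h2 : t⁻¹ * (Quotient.out (t : W ⧸ MulAction.stabilizer W (Quotient.out
      (Quotient.mk (MulAction.orbitRel W X) x))) : W) ∈ MulAction.stabilizer W (Quotient.out
      (Quotient.mk (MulAction.orbitRel W X) x)) := by
      rw [← QuotientGroup.eq]
      exact (QuotientGroup.out_eq' _).symm
    have h3 : (t⁻¹ * (Quotient.out (t : W ⧸ MulAction.stabilizer W (Quotient.out
      (Quotient.mk (MulAction.orbitRel W X) x))) : W)) • Quotient.out
      (Quotient.mk (MulAction.orbitRel W X) x) = Quotient.out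
      (Quotient.mk (MulAction.orbitRel W X) x) := h2
    rw [mul_smul, inv_smul_eq_iff] at h3
    exact h3

/-- **the trace of a representation with blocks** -/
theorem trace_blocks [DecidableEq X] (hN : DirectSum.IsInternal N) (w : W) :
    LinearMap.trace Ω V (ρ w) = ∑ ω : MulAction.orbitRel.Quotient W X,
      Ind (MulAction.stabilizer W (Quotient.out ω))
        (fun s => LinearMap.trace Ω (N (Quotient.out ω)) (blk ρ N hmap (Quotient.out ω) s)) w := by
  obtain ⟨e, he1, he2, he3, he4⟩ := exists_proj N hN
  have hconj : ∀ (t : W) x, e (t • x) * ρ t = ρ t * e x := by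
    intro t x
    ext v
    change e (t • x) (ρ t v) = ρ t (e x v)
    have h1 : v = ∑ y, e y v := by
      have := congrArg (fun f : Module.End Ω V => f v) he2
      simp only [LinearMap.sum_apply, Module.End.one_apply] at this
      exact this.symm
    conv_lhs => rw [h1]
    rw [map_sum, map_sum, Finset.sum_eq_single x]
    · exact he3 _ _ (hmap t x _ (he1 x v))
    · intro y _ hy
      refine he4 _ _ ?_ _ (hmap t y _ (he1 y v))
      intro h
      exact hy (MulAction.injective t h).symm
    · intro h
      exact absurd (Finset.mem_univ _) h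
  have hT : ∀ (t w : W) x, LinearMap.trace Ω V (ρ w * e (t • x)) =
      LinearMap.trace Ω V (ρ (t⁻¹ * w * t) * e x) := by
    intro t w x
    have h1 : e (t • x) = ρ t * e x * ρ t⁻¹ := by
      rw [← hconj, mul_assoc, ← map_mul, mul_inv_cancel, map_one, mul_one]
    rw [h1, ← mul_assoc, LinearMap.trace_mul_comm, ← mul_assoc, ← mul_assoc, ← map_mul, ← map_mul]
  have h0 : ∀ (w : W) x, w • x ≠ x → LinearMap.trace Ω V (ρ w * e x) = 0 := by
    intro w x hx
    have h1 : e x * e x = e x := by
      ext v
      exact he3 x _ (he1 x v)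
    have h2 : e x * e (w • x) = 0 := by
      ext v
      exact he4 _ _ (Ne.symm hx) _ (he1 _ v)
    rw [← h1, ← mul_assoc, LinearMap.trace_mul_comm, ← hconj, ← mul_assoc, h2, zero_mul, map_zero]
  have hS : ∀ x (w : W), LinearMap.trace Ω V (ρ w * e x) = ex (MulAction.stabilizer W x)
      (fun s => LinearMap.trace Ω (N x) (blk ρ N hmap x s)) w := by
    intro x w
    by_cases hx : w ∈ MulAction.stabilizer W x
    · rw [ex_pos _ hx]
      have hf : ∀ v, (ρ w * e x) v ∈ N x := by
        intro v
        have := hmap w x _ (he1 x v)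
        rwa [show w • x = x from hx] at this
      rw [← LinearMap.trace_restrict_eq_of_forall_mem (N x) (ρ w * e x) hf]
      congr 1
      ext v
      change ρ w (e x (v : V)) = ρ w (v : V)
      rw [he3 x v v.2]
    · rw [ex_neg _ hx]
      exact h0 w x hx
  have h1 : LinearMap.trace Ω V (ρ w) = ∑ x, LinearMap.trace Ω V (ρ w * e x) := by
    rw [← map_sum, ← Finset.mul_sum, he2, mul_one]
  rw [h1, sum_orb (W := W)]
  refine Finset.sum_congr rfl fun ω _ => ?_
  unfold Ind
  refine finsum_congr fun q => ?_
  rw [hT, hS]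

end

end Pool.Agent.V8H87.MB
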