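import Mathlib

/-!
# Purely imaginary elements and the numbers `Δ`
-/

set_option autoImplicit false

open scoped Classical

namespace Pool.Agent.V8H87.MB

open Module NumberField

section Fib

variable {F K : Type} [Field F] [Field K] [NumberField F] [NumberField K] [Algebra F K]

/-- the embeddings above `τ` -/
noncomputable def fib (τ : F →+* ℂ) : Finset (K →+* ℂ) :=
  Finset.univ.filter (fun φ => φ.comp (algebraMap F K) = τ)

lemma mem_fib (τ : F →+* ℂ) (φ : K →+* ℂ) : φ ∈ fib τ ↔ φ.comp (algebraMap F K) = τ := by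
  unfold fib
  rw [Finset.mem_filter, and_iff_right (Finset.mem_univ _)]

lemma trace_fib (τ : F →+* ℂ) (x : K) : τ (Algebra.trace F K x) = ∑ φ ∈ fib τ, φ x := by
  letI := τ.toAlgebra
  have h1 := trace_eq_sum_embeddings ℂ (K := F) (L := K) (x := x)
  change τ (Algebra.trace F K x) = _ at h1
  rw [h1]
  refine Finset.sum_bij' (fun σ _ => (σ : K →ₐ[F] ℂ).toRingHom)
    (fun φ hφ => { φ with commutes' := fun r => RingHom.congr_fun ((mem_fib τ φ).1 hφ) r })
    ?_ ?_ ?_ ?_ ?_
  · intro σ _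
    rw [mem_fib]
    ext r
    exact σ.commutes r
  · intro φ _
    exact Finset.mem_univ _
  · intro σ _
    rfl
  · intro φ _
    rfl
  · intro σ _
    rfl

lemma card_fib (τ : F →+* ℂ) : (fib (K := K) τ).card = finrank F K := by
  letI := τ.toAlgebra
  rw [← AlgHom.card F K ℂ, ← Finset.card_univ]
  symm
  refine Finset.card_bij' (fun σ _ => (σ : K →ₐ[F] ℂ).toRingHom)
    (fun φ hφ => { φ with commutes' := fun r => RingHom.congr_fun ((mem_fib τ φ).1 hφ) r })
    ?_ ?_ ?_ ?_
  · intro σ _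
    rw [mem_fib]
    ext r
    exact σ.commutes r
  · intro φ _
    exact Finset.mem_univ _
  · intro σ _
    rfl
  · intro φ _
    rfl

end Fib

section Conj

variable {K : Type} [Field K]

/-- complex conjugation of embeddings -/
noncomputable def cc (φ : K →+* ℂ) : K →+* ℂ := (starRingEnd ℂ).comp φ

lemma cc_apply (φ : K →+* ℂ) (x : K) : cc φ x = star (φ x) := rfl

lemma cc_cc (φ : K →+* ℂ) : cc (cc φ) = φ := by
  ext x
  rw [cc_apply, cc_apply, star_star]

lemma cc_ne [IsTotallyComplex K] (φ : K →+* ℂ) : cc φ ≠ φ := by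
  intro h
  exact IsTotallyComplex.complexEmbedding_not_isReal φ h

lemma cc_comp {F : Type} [Field F] [Algebra F K] (φ : K →+* ℂ) :
    (cc φ).comp (algebraMap F K) = cc (φ.comp (algebraMap F K)) := rfl

lemma cc_real (ψ : maximalRealSubfield K →+* ℂ) [NumberField K] : cc ψ = ψ := by
  exact IsTotallyReal.complexEmbedding_isReal ψ

/-- a sum over an involution without fixed points -/
lemma even_invol {X : Type} (s : Finset X) (g : X → X) (f : X → ℕ) (hf : ∀ x ∈ s, f (g x) = f x)
    (hg : ∀ x ∈ s, g x ≠ x) (hm : ∀ x ∈ s, g x ∈ s) (hgg : ∀ x ∈ s, g (g x) = x) :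
    2 ∣ ∑ x ∈ s, f x := by
  have h1 : ∑ x ∈ s, (f x : ZMod 2) = 0 := by
    refine Finset.sum_involution (fun x _ => g x) ?_ (fun x hx _ => hg x hx) (fun x hx => hm x hx)
      (fun x hx => hgg x hx)
    intro x hx
    rw [hf x hx]
    exact CharTwo.add_self_eq_zero _
  rw [← Nat.cast_sum] at h1
  exact (ZMod.natCast_eq_zero_iff _ 2).1 h1

end Conj

section PI

variable {K : Type} [Field K]

/-- `δ` is not zero, and all its conjugates are purely imaginary -/
def PI (δ : K) : Prop := δ ≠ 0 ∧ ∀ σ : K →+* ℂ, star (σ δ) = - σ δ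

lemma PI.map {F : Type} [Field F] [Algebra F K] {δ : F} (h : PI δ) : PI (algebraMap F K δ) :=
  ⟨(map_ne_zero _).2 h.1, fun σ => h.2 (σ.comp (algebraMap F K))⟩

lemma PI.sq_mem {δ : K} (h : PI δ) : δ ^ 2 ∈ maximalRealSubfield K := by
  rw [mem_maximalRealSubfield_iff]
  intro σ
  rw [map_pow, star_pow, h.2 σ, neg_sq]

lemma PI.div_mem {δ δ' : K} (h : PI δ) (h' : PI δ') : δ' / δ ∈ maximalRealSubfield K := by
  rw [mem_maximalRealSubfield_iff]
  intro σ
  rw [map_div₀, star_div₀, h.2 σ, h'.2 σ, neg_div_neg_eq]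

variable [NumberField K]

lemma even_real [IsTotallyComplex K] : 2 ∣ finrank (maximalRealSubfield K) K := by
  obtain ⟨ψ⟩ : Nonempty (maximalRealSubfield K →+* ℂ) := inferInstance
  rw [← card_fib (K := K) ψ, Finset.card_eq_sum_ones]
  refine even_invol _ cc (fun _ => 1) (fun _ _ => rfl) (fun φ _ => cc_ne φ) (fun φ hφ => ?_)
    (fun φ _ => cc_cc φ)
  rw [mem_fib] at hφ ⊢
  rw [cc_comp, hφ, cc_real]

variable {F : Type} [Field F] [NumberField F] [Algebra F K]

/-- If `F` has no purely imaginary elements, `K` has one, and `F` is totally complex, then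
`4` divides `[K : K_0]`. -/
lemma four_dvd [IsTotallyComplex F] (hF : ∀ δ : F, ¬ PI δ) {δ : K} (hδ : PI δ) :
    4 ∣ finrank (maximalRealSubfield K) K := by
  -- the trace to `F` vanishes
  have htr : ∀ a ∈ maximalRealSubfield K, Algebra.trace F K (a * δ) = 0 := by
    intro a ha
    by_contra h
    refine hF _ ⟨h, fun τ => ?_⟩
    rw [trace_fib, star_sum, ← Finset.sum_neg_distrib]
    refine Finset.sum_congr rfl fun φ _ => ?_
    rw [map_mul, star_mul', hδ.2, ((mem_maximalRealSubfield_iff a).1 ha) φ, mul_neg]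
  -- hence the partial sums vanish
  have hzero : ∀ (τ : F →+* ℂ) (ψ : maximalRealSubfield K →+* ℂ),
      ∑ φ ∈ (fib (K := K) ψ).filter (fun φ => φ.comp (algebraMap F K) = τ), φ δ = 0 := by
    intro τ
    have hli : LinearIndependent ℂ (fun ψ : maximalRealSubfield K →+* ℂ =>
        (fun x => ψ x : maximalRealSubfield K → ℂ)) :=
      (linearIndependent_monoidHom (maximalRealSubfield K) ℂ).comp
        (fun ψ : maximalRealSubfield K →+* ℂ => (ψ : maximalRealSubfield K →* ℂ))
        (fun ψ ψ' h => RingHom.ext (fun x => DFunLike.congr_fun h x))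
    rw [Fintype.linearIndependent_iff] at hli
    refine hli (fun ψ => ∑ φ ∈ (fib (K := K) ψ).filter
      (fun φ => φ.comp (algebraMap F K) = τ), φ δ) ?_
    ext a
    have h1 := congrArg τ (htr a a.2)
    rw [trace_fib, map_zero] at h1
    rw [Finset.sum_apply, Pi.zero_apply, ← h1,
      ← Finset.sum_fiberwise_of_maps_to (s := fib τ) (t := Finset.univ)
        (g := fun φ : K →+* ℂ => φ.comp (algebraMap (maximalRealSubfield K) K))
        (fun _ _ => Finset.mem_univ _)]
    refine Finset.sum_congr rfl fun ψ _ => ?_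
    rw [Pi.smul_apply, smul_eq_mul, Finset.sum_mul]
    refine Finset.sum_congr ?_ ?_
    · ext φ
      rw [Finset.mem_filter, Finset.mem_filter, mem_fib, mem_fib, and_comm]
    · intro φ hφ
      rw [Finset.mem_filter, mem_fib] at hφ
      rw [map_mul, mul_comm, ← hφ.2]
      rfl
  obtain ⟨ψ⟩ : Nonempty (maximalRealSubfield K →+* ℂ) := inferInstance
  obtain ⟨y, hy⟩ : ∃ y : ℂ, y ^ 2 = ψ ⟨δ ^ 2, hδ.sq_mem⟩ := IsAlgClosed.exists_pow_nat_eq _ two_pos
  have hy0 : y ≠ 0 := by
    intro h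
    rw [h, zero_pow two_ne_zero] at hy
    have h2 := (map_eq_zero ψ).1 hy.symm
    have h3 : δ ^ 2 = 0 := congrArg Subtype.val h2
    exact hδ.1 (pow_eq_zero_iff two_ne_zero |>.1 h3)
  have hval : ∀ φ ∈ fib (K := K) ψ, φ δ = y ∨ φ δ = - y := by
    intro φ hφ
    rw [mem_fib] at hφ
    rw [← sq_eq_sq_iff_eq_or_eq_neg, hy, ← hφ, ← map_pow]
    rfl
  set S : (F →+* ℂ) → Finset (K →+* ℂ) := fun τ =>
    (fib (K := K) ψ).filter (fun φ => φ.comp (algebraMap F K) = τ) with hS
  set P : (F →+* ℂ) → Finset (K →+* ℂ) := fun τ => (S τ).filter (fun φ => φ δ = y) with hP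
  have hcard : ∀ τ, (S τ).card = 2 * (P τ).card := by
    intro τ
    have h1 := hzero τ ψ
    rw [← Finset.sum_filter_add_sum_filter_not (S τ) (fun φ => φ δ = y)] at h1
    have h2 : ∑ φ ∈ (S τ).filter (fun φ => φ δ = y), φ δ = (P τ).card * y := by
      rw [Finset.sum_congr rfl fun φ hφ => (Finset.mem_filter.1 hφ).2, Finset.sum_const,
        nsmul_eq_mul]
    have h3 : ∑ φ ∈ (S τ).filter (fun φ => ¬ φ δ = y), φ δ =
        ((S τ).filter (fun φ => ¬ φ δ = y)).card * (- y) := by
      rw [Finset.sum_congr rfl fun φ hφ => ((hval φ (Finset.mem_filter.1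
        (Finset.mem_filter.1 hφ).1).1).resolve_left (Finset.mem_filter.1 hφ).2),
        Finset.sum_const, nsmul_eq_mul]
    rw [h2, h3] at h1
    have h4 : (((P τ).card : ℂ) - (((S τ).filter (fun φ => ¬ φ δ = y)).card : ℂ)) * y = 0 := by
      linear_combination h1
    have h5 := sub_eq_zero.1 ((mul_eq_zero.1 h4).resolve_right hy0)
    have h6 : (P τ).card = ((S τ).filter (fun φ => ¬ φ δ = y)).card := by exact_mod_cast h5
    have h7 := Finset.card_filter_add_card_filter_not (s := S τ) (fun φ : K →+* ℂ => φ δ = y)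
    change (P τ).card + _ = _ at h7
    omega
  have hconj : ∀ τ, (S (cc τ)).card = (S τ).card := by
    intro τ
    symm
    refine Finset.card_bij' (fun φ _ => cc φ) (fun φ _ => cc φ) ?_ ?_ (fun φ _ => cc_cc φ)
      (fun φ _ => cc_cc φ)
    · intro φ hφ
      rw [Finset.mem_filter, mem_fib] at hφ ⊢
      exact ⟨by rw [cc_comp, hφ.1, cc_real], by rw [cc_comp, hφ.2]⟩
    · intro φ hφ
      rw [Finset.mem_filter, mem_fib] at hφ ⊢
      exact ⟨by rw [cc_comp, hφ.1, cc_real], by rw [cc_comp, hφ.2, cc_cc]⟩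
  have h2 : 2 ∣ ∑ τ : F →+* ℂ, (P τ).card := by
    refine even_invol _ cc (fun τ => (P τ).card) (fun τ _ => ?_) (fun τ _ => cc_ne τ)
      (fun τ _ => Finset.mem_univ _) (fun τ _ => cc_cc τ)
    have h1 := hcard τ
    have h2 := hcard (cc τ)
    have h3 := hconj τ
    change (P (cc τ)).card = (P τ).card
    omega
  have h3 : (fib (K := K) ψ).card = ∑ τ : F →+* ℂ, (S τ).card :=
    Finset.card_eq_sum_card_fiberwise (fun _ _ => Finset.mem_univ _)
  rw [← card_fib (K := K) ψ, h3, Finset.sum_congr rfl fun τ _ => hcard τ, ← Finset.mul_sum]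
  obtain ⟨c, hc⟩ := h2
  rw [hc]
  exact ⟨c, by ring⟩

end PI

end Pool.Agent.V8H87.MB
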