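import Mathlib

/-!
# Induction of class functions from subgroups of finite index
-/

set_option autoImplicit false

open scoped Classical

namespace Pool.Agent.V8H87.MB

variable {W : Type} [Group W] {Ω : Type} [Field Ω]

/-- extension by zero -/
noncomputable def ex (H : Subgroup W) (f : H → Ω) (x : W) : Ω := if h : x ∈ H then f ⟨x, h⟩ else 0

lemma ex_pos {H : Subgroup W} (f : H → Ω) {x : W} (h : x ∈ H) : ex H f x = f ⟨x, h⟩ := dif_pos h

lemma ex_neg {H : Subgroup W} (f : H → Ω) {x : W} (h : x ∉ H) : ex H f x = 0 := dif_neg h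

/-- class functions -/
def Cls (H : Subgroup W) (f : H → Ω) : Prop := ∀ h x : H, f (h⁻¹ * x * h) = f x

lemma ex_conj {H : Subgroup W} {f : H → Ω} (hf : Cls H f) (h : H) (x : W) :
    ex H f ((h : W)⁻¹ * x * h) = ex H f x := by
  unfold ex
  by_cases hx : x ∈ H
  · have h1 : (h : W)⁻¹ * x * h ∈ H := H.mul_mem (H.mul_mem (H.inv_mem h.2) hx) h.2
    rw [dif_pos hx, dif_pos h1]
    exact hf h ⟨x, hx⟩
  · have h1 : (h : W)⁻¹ * x * h ∉ H := by
      intro h1
      apply hx
      have h2 := H.mul_mem (H.mul_mem h.2 h1) (H.inv_mem h.2)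
      have h3 : (h : W) * ((h : W)⁻¹ * x * h) * (h : W)⁻¹ = x := by group
      rwa [h3] at h2
    rw [dif_neg hx, dif_neg h1]

/-- the class function induced from a class function on a subgroup -/
noncomputable def Ind (H : Subgroup W) (f : H → Ω) (w : W) : Ω :=
  ∑ᶠ q : W ⧸ H, ex H f ((Quotient.out q : W)⁻¹ * w * Quotient.out q)

lemma ex_out {H : Subgroup W} {f : H → Ω} (hf : Cls H f) (w t : W) :
    ex H f ((Quotient.out (t : W ⧸ H) : W)⁻¹ * w * Quotient.out (t : W ⧸ H)) =
      ex H f (t⁻¹ * w * t) := by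
  have h1 : (t : W)⁻¹ * Quotient.out (t : W ⧸ H) ∈ H := by
    rw [← QuotientGroup.eq]
    exact (QuotientGroup.out_eq' (t : W ⧸ H)).symm
  rw [← ex_conj hf ⟨_, h1⟩ (t⁻¹ * w * t)]
  congr 1
  change _ = ((t : W)⁻¹ * Quotient.out (t : W ⧸ H))⁻¹ * (t⁻¹ * w * t) *
    ((t : W)⁻¹ * Quotient.out (t : W ⧸ H))
  group

lemma Ind_reindex {H : Subgroup W} {f : H → Ω} (hf : Cls H f) (w : W) {X : Type} (e : X → W)
    (he : Function.Bijective (fun x => (e x : W ⧸ H))) :
    Ind H f w = ∑ᶠ x : X, ex H f ((e x)⁻¹ * w * e x) := by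
  unfold Ind
  rw [← finsum_comp_equiv (Equiv.ofBijective _ he)]
  refine finsum_congr fun x => ?_
  exact ex_out hf w (e x)

lemma Ind_conj {H : Subgroup W} {f : H → Ω} (hf : Cls H f) (u w : W) :
    Ind H f (u⁻¹ * w * u) = Ind H f w := by
  rw [Ind_reindex hf w (fun q : W ⧸ H => u * Quotient.out q)]
  · unfold Ind
    refine finsum_congr fun q => ?_
    congr 1
    group
  · constructor
    · intro q q' h
      have h1 : ((u * Quotient.out q : W) : W ⧸ H) = ((u * Quotient.out q' : W) : W ⧸ H) := h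
      rw [QuotientGroup.eq] at h1
      have h2 : (u * Quotient.out q)⁻¹ * (u * Quotient.out q') =
        (Quotient.out q)⁻¹ * Quotient.out q' := by group
      rw [h2, ← QuotientGroup.eq] at h1
      rwa [QuotientGroup.out_eq', QuotientGroup.out_eq'] at h1
    · intro q
      refine ⟨((u⁻¹ * Quotient.out q : W) : W ⧸ H), ?_⟩
      change ((u * Quotient.out ((u⁻¹ * Quotient.out q : W) : W ⧸ H) : W) : W ⧸ H) = q
      conv_rhs => rw [← QuotientGroup.out_eq' q]
      rw [QuotientGroup.eq]
      have h1 : (Quotient.out ((u⁻¹ * Quotient.out q : W) : W ⧸ H))⁻¹ * (u⁻¹ * Quotient.out q) ∈ H := by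
        rw [← QuotientGroup.eq]
        exact QuotientGroup.out_eq' _
      convert h1 using 1
      group

/-- the projection formula -/
lemma Ind_mul (H : Subgroup W) [Finite (W ⧸ H)] (f : H → Ω) (g : W → Ω)
    (hg : ∀ u w, g (u⁻¹ * w * u) = g w) (w : W) :
    Ind H (fun h => f h * g h) w = Ind H f w * g w := by
  have := Fintype.ofFinite (W ⧸ H)
  unfold Ind
  rw [finsum_eq_sum_of_fintype, finsum_eq_sum_of_fintype, Finset.sum_mul]
  refine Finset.sum_congr rfl fun q _ => ?_
  unfold ex
  by_cases h : (Quotient.out q : W)⁻¹ * w * Quotient.out q ∈ H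
  · rw [dif_pos h, dif_pos h]
    change _ * g ((Quotient.out q : W)⁻¹ * w * Quotient.out q) = _
    rw [hg]
  · rw [dif_neg h, dif_neg h, zero_mul]

lemma Ind_add (H : Subgroup W) [Finite (W ⧸ H)] (f f' : H → Ω) (w : W) :
    Ind H (fun h => f h + f' h) w = Ind H f w + Ind H f' w := by
  have := Fintype.ofFinite (W ⧸ H)
  unfold Ind
  rw [finsum_eq_sum_of_fintype, finsum_eq_sum_of_fintype, finsum_eq_sum_of_fintype,
    ← Finset.sum_add_distrib]
  refine Finset.sum_congr rfl fun q _ => ?_
  unfold ex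
  split_ifs <;> simp

lemma Ind_neg (H : Subgroup W) [Finite (W ⧸ H)] (f : H → Ω) (w : W) :
    Ind H (fun h => - f h) w = - Ind H f w := by
  have := Fintype.ofFinite (W ⧸ H)
  unfold Ind
  rw [finsum_eq_sum_of_fintype, finsum_eq_sum_of_fintype, ← Finset.sum_neg_distrib]
  refine Finset.sum_congr rfl fun q _ => ?_
  unfold ex
  split_ifs <;> simp

lemma Ind_zero (H : Subgroup W) (w : W) : Ind H (fun _ => (0 : Ω)) w = 0 := by
  unfold Ind ex
  simp

lemma Ind_top (f : (⊤ : Subgroup W) → Ω) (hf : Cls ⊤ f) (w : W) :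
    Ind ⊤ f w = f ⟨w, Subgroup.mem_top w⟩ := by
  rw [Ind_reindex hf w (fun _ : Unit => (1 : W))]
  · rw [finsum_eq_sum_of_fintype]
    simp only [Finset.univ_unique, Finset.sum_singleton, inv_one, one_mul, mul_one]
    unfold ex
    rw [dif_pos (Subgroup.mem_top w)]
  · constructor
    · intro _ _ _
      rfl
    · intro q
      refine ⟨(), ?_⟩
      induction q using QuotientGroup.induction_on with
      | H z =>
        change ((1 : W) : W ⧸ (⊤ : Subgroup W)) = (z : W ⧸ (⊤ : Subgroup W))
        rw [QuotientGroup.eq]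
        exact Subgroup.mem_top _

/-- transport of a function along `K ≃ K.map H.subtype` -/
noncomputable def up (H : Subgroup W) (K : Subgroup H) (f : K → Ω) : K.map H.subtype → Ω :=
  fun x => f ((K.equivMapOfInjective H.subtype H.subtype_injective).symm x)

lemma up_mk (H : Subgroup W) (K : Subgroup H) (f : K → Ω) (k : H) (hk : k ∈ K)
    (hk' : (k : W) ∈ K.map H.subtype) : up H K f ⟨k, hk'⟩ = f ⟨k, hk⟩ := by
  unfold up
  congr 1
  rw [MulEquiv.symm_apply_eq]
  exact Subtype.ext rfl

lemma ex_up (H : Subgroup W) (K : Subgroup H) (f : K → Ω) (x : W) :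
    ex (K.map H.subtype) (up H K f) x = ex H (fun h => ex K f h) x := by
  by_cases h : x ∈ H
  · rw [ex_pos _ h]
    by_cases h1 : (⟨x, h⟩ : H) ∈ K
    · rw [ex_pos _ h1]
      have h2 : x ∈ K.map H.subtype := ⟨⟨x, h⟩, h1, rfl⟩
      rw [ex_pos _ h2]
      exact up_mk H K f ⟨x, h⟩ h1 h2
    · rw [ex_neg _ h1, ex_neg]
      rintro ⟨y, hy, hyx⟩
      apply h1
      have : y = ⟨x, h⟩ := Subtype.ext hyx
      rwa [← this]
  · rw [ex_neg _ h, ex_neg]
    rintro ⟨y, _, hyx⟩
    apply h
    rw [← hyx]
    exact y.2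

lemma cls_up (H : Subgroup W) (K : Subgroup H) {f : K → Ω} (hf : Cls K f) :
    Cls (K.map H.subtype) (up H K f) := by
  intro h x
  unfold up
  rw [map_mul, map_mul, map_inv]
  exact hf _ _

/-- induction in stages -/
lemma Ind_trans (H : Subgroup W) (K : Subgroup H) [Finite (W ⧸ H)] [Finite (H ⧸ K)]
    {f : K → Ω} (hf : Cls K f) (w : W) :
    Ind H (fun h => Ind K f h) w = Ind (K.map H.subtype) (up H K f) w := by
  have := Fintype.ofFinite (W ⧸ H)
  have := Fintype.ofFinite (H ⧸ K)
  rw [Ind_reindex (cls_up H K hf) w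
    (fun p : (W ⧸ H) × (H ⧸ K) => (Quotient.out p.1 : W) * (Quotient.out p.2 : H))]
  · rw [finsum_eq_sum_of_fintype, Fintype.sum_prod_type]
    unfold Ind
    rw [finsum_eq_sum_of_fintype]
    refine Finset.sum_congr rfl fun q _ => ?_
    have h1 : ∀ (p : H ⧸ K) , ex (K.map H.subtype) (up H K f)
        (((Quotient.out q : W) * (Quotient.out p : H))⁻¹ * w *
          ((Quotient.out q : W) * (Quotient.out p : H))) =
        ex H (fun h => ex K f ((Quotient.out p : H)⁻¹ * h * (Quotient.out p : H)))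
          ((Quotient.out q : W)⁻¹ * w * (Quotient.out q : W)) := by
      intro p
      rw [ex_up]
      have h2 : ((Quotient.out q : W) * (Quotient.out p : H))⁻¹ * w *
          ((Quotient.out q : W) * (Quotient.out p : H)) =
          ((Quotient.out p : H) : W)⁻¹ * ((Quotient.out q : W)⁻¹ * w * (Quotient.out q : W)) *
            (Quotient.out p : H) := by group
      rw [h2]
      by_cases h3 : (Quotient.out q : W)⁻¹ * w * (Quotient.out q : W) ∈ H
      · have h4 : ((Quotient.out p : H) : W)⁻¹ * ((Quotient.out q : W)⁻¹ * w *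
          (Quotient.out q : W)) * (Quotient.out p : H) ∈ H :=
          H.mul_mem (H.mul_mem (H.inv_mem (Quotient.out p).2) h3) (Quotient.out p).2
        rw [ex_pos _ h3, ex_pos _ h4]
        rfl
      · have h4 : ((Quotient.out p : H) : W)⁻¹ * ((Quotient.out q : W)⁻¹ * w *
          (Quotient.out q : W)) * (Quotient.out p : H) ∉ H := by
          intro h4
          apply h3
          have h5 := H.mul_mem (H.mul_mem (Quotient.out p).2 h4) (H.inv_mem (Quotient.out p).2)
          convert h5 using 1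
          group
        rw [ex_neg _ h3, ex_neg _ h4]
    rw [Finset.sum_congr rfl fun p _ => h1 p]
    by_cases h3 : (Quotient.out q : W)⁻¹ * w * (Quotient.out q : W) ∈ H
    · simp only [ex_pos _ h3]
      rw [finsum_eq_sum_of_fintype]
    · simp only [ex_neg _ h3, Finset.sum_const_zero]
  · constructor
    · rintro ⟨q, p⟩ ⟨q', p'⟩ h
      have h1 : (((Quotient.out q : W) * (Quotient.out p : H) : W) : W ⧸ K.map H.subtype) =
        (((Quotient.out q' : W) * (Quotient.out p' : H) : W) : W ⧸ K.map H.subtype) := h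
      rw [QuotientGroup.eq] at h1
      have h2 : (Quotient.out q : W)⁻¹ * (Quotient.out q' : W) ∈ H := by
        obtain ⟨y, _, hy⟩ := h1
        have h3 := H.mul_mem (H.mul_mem (Quotient.out p).2 y.2) (H.inv_mem (Quotient.out p').2)
        change (y : W) = _ at hy
        rw [hy] at h3
        convert h3 using 1
        group
      have h3 : q = q' := by
        rw [← QuotientGroup.eq, QuotientGroup.out_eq', QuotientGroup.out_eq'] at h2
        exact h2
      subst h3
      have h4 : (Quotient.out p : H)⁻¹ * (Quotient.out p' : H) ∈ K := by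
        obtain ⟨y, hy', hy⟩ := h1
        have h5 : y = (Quotient.out p : H)⁻¹ * (Quotient.out p' : H) := by
          apply Subtype.ext
          change (y : W) = _ at hy
          rw [hy]
          change _ = ((Quotient.out p : H) : W)⁻¹ * ((Quotient.out p' : H) : W)
          group
        rwa [← h5]
      rw [← QuotientGroup.eq, QuotientGroup.out_eq', QuotientGroup.out_eq'] at h4
      rw [h4]
    · intro r
      induction r using QuotientGroup.induction_on with
      | H t =>
        have h1 : (Quotient.out (t : W ⧸ H) : W)⁻¹ * t ∈ H := by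
          rw [← QuotientGroup.eq]
          exact QuotientGroup.out_eq' _
        refine ⟨((t : W ⧸ H), ((⟨_, h1⟩ : H) : H ⧸ K)), ?_⟩
        change ((_ : W) : W ⧸ K.map H.subtype) = (t : W ⧸ K.map H.subtype)
        rw [QuotientGroup.eq]
        have h2 : (Quotient.out (((⟨_, h1⟩ : H) : H ⧸ K)) : H)⁻¹ * (⟨_, h1⟩ : H) ∈ K := by
          rw [← QuotientGroup.eq]
          exact QuotientGroup.out_eq' _
        refine ⟨_, h2, ?_⟩
        change ((Quotient.out (((⟨_, h1⟩ : H) : H ⧸ K)) : H) : W)⁻¹ *
          ((Quotient.out (t : W ⧸ H) : W)⁻¹ * t) = _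
        group

end Pool.Agent.V8H87.MB
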