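import Pool.Agent.V8H87.MB.Nilp
import Pool.Agent.V8H87.EB.Br.Brauer

/-!
# The theorem of Brauer for potentially abelian representations
-/

set_option autoImplicit false

open scoped Classical

namespace Pool.Agent.V8H87.MB

open Module

section Elem

variable {G : Type} [Group G] [Finite G]

lemma elem_nilp {H : Subgroup G} (h : EB.Br.Elem H) : Group.IsNilpotent H := by
  obtain ⟨p, C, P, hp, hC, -, hP, hcomm, hsup⟩ := h
  have hCH : C ≤ H := hsup ▸ le_sup_left
  have hPH : P ≤ H := hsup ▸ le_sup_right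
  have : Fact p.Prime := ⟨hp⟩
  have h1 : Group.IsNilpotent P := IsPGroup.isNilpotent hP
  have h2 : Group.IsNilpotent C := by
    letI : CommGroup C := IsCyclic.commGroup
    exact CommGroup.isNilpotent
  have hcm : ∀ (c : C) (u : P), Commute (Subgroup.inclusion hCH c) (Subgroup.inclusion hPH u) := by
    intro c u
    apply Subtype.ext
    change (c : G) * (u : G) = u * c
    exact hcomm c c.2 u u.2
  refine Group.nilpotent_of_surjective ((Subgroup.inclusion hCH).noncommCoprod
    (Subgroup.inclusion hPH) hcm) ?_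
  rw [← MonoidHom.range_eq_top, MonoidHom.noncommCoprod_range, eq_top_iff]
  intro x _
  have hx : (x : G) ∈ C ⊔ P := hsup ▸ x.2
  have h3 : (Subgroup.map H.subtype ((Subgroup.inclusion hCH).range ⊔
      (Subgroup.inclusion hPH).range)) = C ⊔ P := by
    rw [Subgroup.map_sup]
    congr 1
    · ext y
      constructor
      · rintro ⟨_, ⟨c, rfl⟩, rfl⟩
        exact c.2
      · intro hy
        exact ⟨_, ⟨⟨y, hy⟩, rfl⟩, rfl⟩
    · ext y
      constructor
      · rintro ⟨_, ⟨c, rfl⟩, rfl⟩
        exact c.2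
      · intro hy
        exact ⟨_, ⟨⟨y, hy⟩, rfl⟩, rfl⟩
  rw [← h3] at hx
  obtain ⟨y, hy, hyx⟩ := hx
  have : y = x := Subtype.ext hyx
  rwa [← this]

/-- subgroups of elementary groups are elementary -/
lemma Elem_of_le {H K : Subgroup G} (h : EB.Br.Elem H) (hKH : K ≤ H) : EB.Br.Elem K := by
  obtain ⟨p, C, P, hp, hC, hcop, hP, hcomm, hsup⟩ := h
  have hpf : Fact p.Prime := ⟨hp⟩
  have h1 : ∀ x ∈ K, ∃ c ∈ C, ∃ u ∈ P, c * u = x ∧ c ∈ K ∧ u ∈ K := by
    intro x hx
    have hx' : x ∈ C ⊔ P := hsup ▸ hKH hx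
    have hcm : ∀ (c : C) (u : P), Commute (C.subtype c) (P.subtype u) :=
      fun c u => hcomm c c.2 u u.2
    have hr := MonoidHom.noncommCoprod_range C.subtype P.subtype hcm
    rw [Subgroup.range_subtype, Subgroup.range_subtype] at hr
    rw [← hr] at hx'
    obtain ⟨⟨⟨c, hc⟩, ⟨u, hu⟩⟩, hcu'⟩ := hx'
    have hcu'' : c * u = x := hcu'
    subst hcu''
    have hco : (orderOf c).Coprime (orderOf u) := by
      obtain ⟨j, hj⟩ := (IsPGroup.iff_orderOf.1 hP) ⟨u, hu⟩
      rw [Subgroup.orderOf_mk] at hj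
      rw [hj]
      have h2 : orderOf c ∣ Nat.card C := by
        have := orderOf_dvd_natCard (⟨c, hc⟩ : C)
        rwa [Subgroup.orderOf_mk] at this
      exact (Nat.Coprime.coprime_dvd_left h2 hcop).pow_right j
    obtain ⟨a, ha1, ha2⟩ := Nat.chineseRemainder hco 1 0
    have hcu : Commute c u := hcomm c hc u hu
    have h2 : (c * u) ^ a = c := by
      rw [hcu.mul_pow]
      have h3 : u ^ a = 1 := orderOf_dvd_iff_pow_eq_one.1 ((Nat.modEq_zero_iff_dvd).1 ha2)
      have h4 : c ^ a = c ^ 1 := pow_eq_pow_iff_modEq.2 ha1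
      rw [h3, h4, pow_one, mul_one]
    have hcK : c ∈ K := by
      have h3 := K.pow_mem hx a
      rwa [h2] at h3
    refine ⟨c, hc, u, hu, rfl, hcK, ?_⟩
    have h3 := K.mul_mem (K.inv_mem hcK) hx
    rwa [inv_mul_cancel_left] at h3
  refine ⟨p, C ⊓ K, P ⊓ K, hp, ?_, ?_, ?_, ?_, ?_⟩
  · exact isCyclic_of_injective (Subgroup.inclusion (inf_le_left : C ⊓ K ≤ C))
      (Subgroup.inclusion_injective _)
  · exact Nat.Coprime.coprime_dvd_left (Subgroup.card_dvd_of_le inf_le_left) hcop
  · exact hP.to_le inf_le_left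
  · intro c hc u hu
    exact hcomm c hc.1 u hu.1
  · apply le_antisymm
    · exact sup_le inf_le_right inf_le_right
    · intro x hx
      obtain ⟨c, hc, u, hu, rfl, hcK, huK⟩ := h1 x hx
      exact (C ⊓ K ⊔ P ⊓ K).mul_mem (Subgroup.mem_sup_left ⟨hc, hcK⟩)
        (Subgroup.mem_sup_right ⟨hu, huK⟩)

lemma sum_cosets {Ω : Type} [Field Ω] [Fintype G] (U : Subgroup G) (F : G → Ω)
    (hF : ∀ x, ∀ u ∈ U, F (x * u) = F x) :
    ∑ x, F x = (Nat.card U : Ω) * ∑ᶠ p : G ⧸ U, F (Quotient.out p) := by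
  have := Fintype.ofFinite (G ⧸ U)
  have := Fintype.ofFinite U
  rw [finsum_eq_sum_of_fintype, Finset.mul_sum]
  have h1 : ∑ x, F x = ∑ p : (G ⧸ U) × U, F ((Quotient.out p.1 : G) * (p.2 : G)) := by
    symm
    refine Fintype.sum_bijective (fun p : (G ⧸ U) × U => (Quotient.out p.1 : G) * (p.2 : G)) ?_ _ _
      (fun _ => rfl)
    constructor
    · rintro ⟨q, u⟩ ⟨q', u'⟩ h
      change (Quotient.out q : G) * (u : G) = (Quotient.out q' : G) * (u' : G) at h
      have h2 : q = q' := by
        rw [← QuotientGroup.out_eq' q, ← QuotientGroup.out_eq' q', QuotientGroup.eq]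
        have h3 : (Quotient.out q : G)⁻¹ * Quotient.out q' = (u : G) * (u' : G)⁻¹ := by
          rw [inv_mul_eq_iff_eq_mul, ← mul_assoc, h, mul_inv_cancel_right]
        rw [h3]
        exact U.mul_mem u.2 (U.inv_mem u'.2)
      subst h2
      have h3 : u = u' := Subtype.ext (mul_left_cancel h)
      rw [h3]
    · intro x
      have h2 : (Quotient.out (x : G ⧸ U) : G)⁻¹ * x ∈ U := by
        rw [← QuotientGroup.eq]
        exact QuotientGroup.out_eq' _
      exact ⟨((x : G ⧸ U), ⟨_, h2⟩), mul_inv_cancel_left _ _⟩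
  rw [h1, Fintype.sum_prod_type]
  refine Finset.sum_congr rfl fun p _ => ?_
  have h2 : ∀ u : U, F ((Quotient.out (p, u).1 : G) * ((p, u).2 : G)) = F (Quotient.out p) :=
    fun u => hF _ u u.2
  rw [Finset.sum_congr rfl fun u _ => h2 u, Finset.sum_const, Finset.card_univ,
    Nat.card_eq_fintype_card, nsmul_eq_mul]

end Elem

section Infl

variable {W : Type} [Group W] {G : Type} [Group G] [Fintype G] {Ω : Type} [Field Ω] [CharZero Ω]
  (π : W →* G)

/-- the inflation of a character -/
def infl (U : Subgroup G) (φ : U →* Ωˣ) : U.comap π →* Ωˣ :=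
  φ.comp ((π.comp (U.comap π).subtype).codRestrict U (fun x => x.2))

lemma Ind_infl (hπ : Function.Surjective π) (U : Subgroup G) (φ : U →* Ωˣ) (w : W) :
    Ind (U.comap π) (fun k => (infl π U φ k : Ω)) w = EB.ind U φ (π w) := by
  have h0 : ∀ x : W, EB.ext U φ ((π x)⁻¹ * π w * π x) =
      ex (U.comap π) (fun k => (infl π U φ k : Ω)) (x⁻¹ * w * x) := by
    intro x
    have he : (π x)⁻¹ * π w * π x = π (x⁻¹ * w * x) := by rw [map_mul, map_mul, map_inv]
    rw [he]
    unfold EB.ext
    by_cases h : π (x⁻¹ * w * x) ∈ U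
    · have h1 : x⁻¹ * w * x ∈ U.comap π := h
      rw [dif_pos h, ex_pos _ h1]
      rfl
    · have h1 : x⁻¹ * w * x ∉ U.comap π := h
      rw [dif_neg h, ex_neg _ h1]
  have hcls := cls_hom (U.comap π) (infl π U φ)
  have hinv : ∀ (x u : G), u ∈ U → EB.ext U φ ((x * u)⁻¹ * π w * (x * u)) =
      EB.ext U φ (x⁻¹ * π w * x) := by
    intro x u hu
    obtain ⟨x, rfl⟩ := hπ x
    obtain ⟨u, rfl⟩ := hπ u
    have h1 := h0 (x * u)
    rw [map_mul] at h1
    rw [h1, h0 x, ← ex_conj hcls ⟨u, hu⟩ (x⁻¹ * w * x)]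
    congr 1
    change _ = u⁻¹ * (x⁻¹ * w * x) * u
    group
  unfold EB.ind
  rw [sum_cosets U (fun x => EB.ext U φ (x⁻¹ * π w * x)) hinv, ← mul_assoc,
    inv_mul_cancel₀ (Nat.cast_ne_zero.2 Nat.card_pos.ne'), one_mul]
  rw [Ind_reindex hcls w (fun p : G ⧸ U => Function.surjInv hπ (Quotient.out p))]
  · refine finsum_congr fun p => ?_
    rw [← h0, Function.surjInv_eq hπ]
  · constructor
    · intro p p' h
      have h1 : ((Function.surjInv hπ (Quotient.out p) : W) : W ⧸ U.comap π) =
        ((Function.surjInv hπ (Quotient.out p') : W) : W ⧸ U.comap π) := h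
      rw [QuotientGroup.eq, Subgroup.mem_comap, map_mul, map_inv, Function.surjInv_eq hπ,
        Function.surjInv_eq hπ, ← QuotientGroup.eq, QuotientGroup.out_eq',
        QuotientGroup.out_eq'] at h1
      exact h1
    · intro q
      induction q using QuotientGroup.induction_on with
      | H z =>
        refine ⟨(π z : G ⧸ U), ?_⟩
        change ((_ : W) : W ⧸ U.comap π) = (z : W ⧸ _)
        rw [QuotientGroup.eq, Subgroup.mem_comap, map_mul, map_inv, Function.surjInv_eq hπ,
          ← QuotientGroup.eq]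
        exact QuotientGroup.out_eq' _

end Infl

section Final

variable {W : Type} [Group W] {G : Type} [Group G] [Finite G] {Ω : Type} [Field Ω] [CharZero Ω]
  [IsAlgClosed Ω] {V : Type} [AddCommGroup V] [Module Ω V] [FiniteDimensional Ω V]
  (ρ : Representation Ω W V)

/-- a twist of the restriction -/
noncomputable def tws {H : Subgroup W} (φ : H →* Ωˣ) : Representation Ω H V where
  toFun h := (φ h : Ω) • ρ (h : W)
  map_one' := by simp
  map_mul' a b := by
    rw [map_mul, Units.val_mul, Subgroup.coe_mul, map_mul, smul_mul_smul_comm]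

/-- **The theorem of Brauer** for representations which are a sum of characters on a normal subgroup
of finite index. -/
theorem brauer_rep (π : W →* G) (hπ : Function.Surjective π) (h : Diag ρ π.ker) :
    (fun w => LinearMap.trace Ω V (ρ w)) ∈ Sp (fun (K : Subgroup W) (χ : K →* Ωˣ) =>
      Wt ρ π.ker K χ ∧ EB.Br.Elem (K.map π)) := by
  have := Fintype.ofFinite G
  have hkf : π.ker.FiniteIndex := by
    have : Finite (W ⧸ π.ker) := Finite.of_injective _ (QuotientGroup.kerLift_injective π)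
    exact Subgroup.finiteIndex_of_finite_quotient
  obtain ⟨ι, _, U, φ, n, hU, hsum⟩ := EB.Br.brauer_one (E := Ω) G
  have hAH : ∀ i, π.ker ≤ (U i).comap π := by
    intro i a ha
    rw [Subgroup.mem_comap, MonoidHom.mem_ker.1 ha]
    exact one_mem _
  have hHf : ∀ i, ((U i).comap π).FiniteIndex := fun i =>
    Subgroup.finiteIndex_of_le (hAH i)
  have hHf' : ∀ i, Finite (W ⧸ (U i).comap π) := fun i =>
    Subgroup.finite_quotient_of_finiteIndex
  have hcl : ∀ u w, LinearMap.trace Ω V (ρ (u⁻¹ * w * u)) = LinearMap.trace Ω V (ρ w) := by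
    intro u w
    rw [map_mul ρ, map_mul ρ, LinearMap.trace_mul_comm, ← mul_assoc, ← map_mul ρ, mul_inv_cancel,
      map_one ρ, one_mul]
  have hfun : (fun w => LinearMap.trace Ω V (ρ w)) = ∑ i, (n i) •
      Ind ((U i).comap π) (fun k => LinearMap.trace Ω V (tws ρ (infl π (U i) (φ i)) k)) := by
    ext w
    rw [Finset.sum_apply]
    have h1 : ∀ i, Ind ((U i).comap π) (fun k => LinearMap.trace Ω V
        (tws ρ (infl π (U i) (φ i)) k)) w =
        EB.ind (U i) (φ i) (π w) * LinearMap.trace Ω V (ρ w) := by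
      intro i
      rw [← Ind_infl π hπ (U i) (φ i) w,
        ← Ind_mul _ _ (fun w => LinearMap.trace Ω V (ρ w)) hcl w]
      congr 1
      ext k
      change LinearMap.trace Ω V ((infl π (U i) (φ i) k : Ω) • ρ (k : W)) = _
      rw [map_smul, smul_eq_mul]
    have h2 : ∀ i, ((n i) • Ind ((U i).comap π) (fun k => LinearMap.trace Ω V
        (tws ρ (infl π (U i) (φ i)) k))) w =
        (n i : Ω) * EB.ind (U i) (φ i) (π w) * LinearMap.trace Ω V (ρ w) := by
      intro i
      rw [Pi.smul_apply, h1, zsmul_eq_mul, mul_assoc]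
    rw [Finset.sum_congr rfl fun i _ => h2 i, ← Finset.sum_mul]
    have h3 := hsum (π w)
    change (1 : Ω) = _ at h3
    rw [← h3, one_mul]
  rw [hfun]
  refine sum_mem fun i _ => zsmul_mem ?_ _
  refine Ind_mem (P' := Wt (tws ρ (infl π (U i) (φ i)))
    (π.ker.subgroupOf ((U i).comap π))) ?_ ?_
  · rintro K χ ⟨hAK, v, hv, h2⟩
    have hKf : K.FiniteIndex := Subgroup.finiteIndex_of_le hAK
    refine ⟨Subgroup.finite_quotient_of_finiteIndex, ⟨?_, v, hv, ?_⟩, Elem_of_le (hU i) ?_⟩
    · intro a ha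
      exact ⟨⟨a, hAH i ha⟩, hAK (Subgroup.mem_subgroupOf.2 ha), rfl⟩
    · intro a
      have h3 := h2 ⟨⟨a, hAH i a.2⟩, Subgroup.mem_subgroupOf.2 a.2⟩
      have h5 := upc_mk ((U i).comap π) K χ ⟨a, hAH i a.2⟩
        (hAK (Subgroup.mem_subgroupOf.2 a.2)) ⟨⟨a, hAH i a.2⟩, hAK (Subgroup.mem_subgroupOf.2 a.2), rfl⟩
      change _ = ((upc ((U i).comap π) K χ ⟨a, _⟩ : Ωˣ) : Ω) • v
      rw [h5, ← h3]
      change _ = ((infl π (U i) (φ i) ⟨a, hAH i a.2⟩ : Ωˣ) : Ω) • ρ (a : W) v
      have h6 : infl π (U i) (φ i) ⟨a, hAH i a.2⟩ = 1 := by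
        change φ i _ = 1
        have h7 : ((π.comp ((U i).comap π).subtype).codRestrict
          (U i) (fun x => x.2)) ⟨a, hAH i a.2⟩ = 1 :=
          Subtype.ext (MonoidHom.mem_ker.1 a.2)
        rw [h7, map_one]
      rw [h6, Units.val_one, one_smul]
    · rw [Subgroup.map_le_iff_le_comap]
      rintro _ ⟨y, _, rfl⟩
      exact y.2
  · refine nilp _ ((U i).comap π) (π.ker.subgroupOf _) V
      (tws ρ (infl π (U i) (φ i))) rfl ?_ ?_
    · have hn := elem_nilp (hU i)
      let f : ((U i).comap π) ⧸ π.ker.subgroupOf ((U i).comap π)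
          →* U i := QuotientGroup.lift _ ((π.comp
            ((U i).comap π).subtype).codRestrict (U i) (fun x => x.2)) (by
              intro x hx
              exact Subtype.ext (MonoidHom.mem_ker.1 (Subgroup.mem_subgroupOf.1 hx)))
      have hf : Function.Injective f := by
        rw [injective_iff_map_eq_one]
        intro q
        induction q using QuotientGroup.induction_on with
        | H z =>
          intro hz
          have h1 : π (z : W) = 1 := congrArg Subtype.val hz
          rw [QuotientGroup.eq_one_iff]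
          exact h1
      exact Group.nilpotent_of_mulEquiv (MonoidHom.ofInjective hf).symm
    · have hs : ∀ a (ha : a ∈ π.ker.subgroupOf ((U i).comap π)),
          tws ρ (infl π (U i) (φ i)) a = ρ (a : W) := by
        intro a ha
        change ((infl π (U i) (φ i) a : Ωˣ) : Ω) • ρ (a : W) = _
        have h6 : infl π (U i) (φ i) a = 1 := by
          change φ i _ = 1
          have h7 : ((π.comp ((U i).comap π).subtype).codRestrict (U i) (fun x => x.2)) a = 1 :=
            Subtype.ext (MonoidHom.mem_ker.1 (Subgroup.mem_subgroupOf.1 ha))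
          rw [h7, map_one]
        rw [h6, Units.val_one, one_smul]
      constructor
      · intro a ha
        rw [hs a ha]
        exact h.1 a (Subgroup.mem_subgroupOf.1 ha)
      · intro a ha b hb
        rw [hs a ha, hs b hb]
        exact h.2 a (Subgroup.mem_subgroupOf.1 ha) b (Subgroup.mem_subgroupOf.1 hb)

end Final

end Pool.Agent.V8H87.MB
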