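import Pool.Agent.V8H87.MB.Wts

/-!
# Representations of groups which are abelian by nilpotent
-/

set_option autoImplicit false

open scoped Classical

namespace Pool.Agent.V8H87.MB

open Module

section Scalar

variable {W : Type} [Group W] {Ω : Type} [Field Ω] {V : Type} [AddCommGroup V] [Module Ω V]
  [FiniteDimensional Ω V] (ρ : Representation Ω W V) (A : Subgroup W)

/-- a character through which `A` acts -/
lemma exists_char [Nontrivial V] (χ : A → Ω) (h : ∀ (a : A) v, ρ a v = χ a • v) :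
    ∃ φ : A →* Ωˣ, ∀ a, (φ a : Ω) = χ a := by
  obtain ⟨v, hv⟩ := exists_ne (0 : V)
  have h1 : χ 1 = 1 := by
    have := h 1 v
    rw [Subgroup.coe_one, map_one, Module.End.one_apply] at this
    have h2 : (χ 1 - 1) • v = 0 := by rw [sub_smul, ← this, one_smul, sub_self]
    exact sub_eq_zero.1 ((smul_eq_zero.1 h2).resolve_right hv)
  have h2 : ∀ a b : A, χ (a * b) = χ a * χ b := by
    intro a b
    have := h (a * b) v
    rw [Subgroup.coe_mul, map_mul, Module.End.mul_apply, h b, map_smul, h a, smul_smul] at this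
    have h3 : (χ b * χ a - χ (a * b)) • v = 0 := by rw [sub_smul, this, sub_self]
    have h4 := sub_eq_zero.1 ((smul_eq_zero.1 h3).resolve_right hv)
    rw [← h4, mul_comm]
  let f : A →* Ω := { toFun := χ, map_one' := h1, map_mul' := h2 }
  exact ⟨f.toHomUnits, fun a => rfl⟩

lemma semisimple_of_pow [CharZero Ω] (f : Module.End Ω V) (n : ℕ) (hn : n ≠ 0) (c : Ω) (hc : c ≠ 0)
    (h : f ^ n = algebraMap Ω (Module.End Ω V) c) : Module.End.IsSemisimple f := by
  refine Module.End.isSemisimple_of_squarefree_aeval_eq_zero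
    (p := Polynomial.X ^ n - Polynomial.C c) ?_ ?_
  · exact (Polynomial.separable_X_pow_sub_C c (Nat.cast_ne_zero.2 hn) hc).squarefree
  · rw [map_sub, map_pow, Polynomial.aeval_X, Polynomial.aeval_C, h, sub_self]

/-- enlarging a subgroup acting by scalars by one element -/
lemma diag_enlarge [CharZero Ω] [hA : A.Normal] [A.FiniteIndex] (φ : A →* Ωˣ)
    (h : ∀ (a : A) v, ρ a v = (φ a : Ω) • v) (A' : Subgroup W) (x : W)
    (hA' : ∀ y ∈ A', ∃ (i : ℤ), y * x ^ i ∈ A) : Diag ρ A' := by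
  have hs : ∀ a : A, ρ a = algebraMap Ω (Module.End Ω V) (φ a) := by
    intro a
    ext v
    rw [h a v]
    rfl
  constructor
  · intro y _
    refine semisimple_of_pow (ρ y) A.index Subgroup.FiniteIndex.index_ne_zero
      (φ ⟨_, A.pow_index_mem y⟩ : Ω) (Units.ne_zero _) ?_
    rw [← hs, ← map_pow]
  · have key : ∀ y ∈ A', ∃ (i : ℤ) (c : Ω), ρ y = algebraMap Ω (Module.End Ω V) c * ρ (x ^ i) := by
      intro y hy
      obtain ⟨i, hi⟩ := hA' y hy
      refine ⟨-i, φ ⟨_, hi⟩, ?_⟩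
      rw [← hs, ← map_mul]
      congr 1
      change y = y * x ^ i * x ^ (-i)
      rw [mul_assoc, ← zpow_add, add_neg_cancel, zpow_zero, mul_one]
    intro y hy z hz
    obtain ⟨i, c, hi⟩ := key y hy
    obtain ⟨j, d, hj⟩ := key z hz
    rw [hi, hj]
    have h1 : Commute (ρ (x ^ i)) (ρ (x ^ j)) := by
      change ρ (x ^ i) * ρ (x ^ j) = ρ (x ^ j) * ρ (x ^ i)
      rw [← map_mul, ← map_mul, ← zpow_add, ← zpow_add, add_comm]
    have e1 : Commute (algebraMap Ω (Module.End Ω V) c)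
      (algebraMap Ω (Module.End Ω V) d * ρ (x ^ j)) := Algebra.commutes c _
    have e2 : Commute (ρ (x ^ i)) (algebraMap Ω (Module.End Ω V) d) :=
      (Algebra.commutes d (ρ (x ^ i)) : Commute _ _).symm
    exact e1.mul_left (e2.mul_right h1)

lemma Wt_mono {ρ : Representation Ω W V} {A A' : Subgroup W} (hAA : A ≤ A') (K : Subgroup W)
    (χ : K →* Ωˣ) (h : Wt ρ A' K χ) : Wt ρ A K χ := by
  obtain ⟨h1, v, hv, h2⟩ := h
  exact ⟨hAA.trans h1, v, hv, fun a => h2 ⟨a, hAA a.2⟩⟩

end Scalar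

section Main

lemma exists_enlarge {W : Type} [Group W] (A : Subgroup W) [hAn : A.Normal]
    [hN : Group.IsNilpotent (W ⧸ A)] (hA : A ≠ ⊤) :
    ∃ (A' : Subgroup W) (x : W), A'.Normal ∧ A < A' ∧ ∀ y ∈ A', ∃ i : ℤ, y * x ^ i ∈ A := by
  have h0 : Nontrivial (W ⧸ A) := by
    obtain ⟨y, hy⟩ : ∃ y, y ∉ A := by
      by_contra h
      push Not at h
      exact hA (Subgroup.eq_top_iff' A |>.2 h)
    refine ⟨⟨(y : W ⧸ A), 1, fun h => hy ?_⟩⟩
    exact (QuotientGroup.eq_one_iff y).1 h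
  obtain ⟨z, hz, hz1⟩ := (Subgroup.bot_or_exists_ne_one (Subgroup.center (W ⧸ A))).resolve_left
    (Group.IsNilpotent.center_ne_bot _)
  obtain ⟨x, rfl⟩ := QuotientGroup.mk_surjective z
  refine ⟨(Subgroup.zpowers (x : W ⧸ A)).comap (QuotientGroup.mk' A), x, ?_, ?_, ?_⟩
  · have h1 : (Subgroup.zpowers (x : W ⧸ A)).Normal := by
      constructor
      rintro _ ⟨i, rfl⟩ g
      refine ⟨i, ?_⟩
      have h2 : Commute g ((x : W ⧸ A) ^ i) :=
        Commute.zpow_right (Subgroup.mem_center_iff.1 hz g) i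
      change (x : W ⧸ A) ^ i = g * (x : W ⧸ A) ^ i * g⁻¹
      rw [h2.eq, mul_inv_cancel_right]
    exact h1.comap _
  · refine lt_of_le_of_ne ?_ ?_
    · intro a ha
      rw [Subgroup.mem_comap, QuotientGroup.mk'_apply, (QuotientGroup.eq_one_iff a).2 ha]
      exact one_mem _
    · intro h
      apply hz1
      rw [QuotientGroup.eq_one_iff, h, Subgroup.mem_comap]
      exact Subgroup.mem_zpowers _
  · rintro y ⟨i, hi⟩
    refine ⟨-i, ?_⟩
    rw [← QuotientGroup.eq_one_iff]
    change (y : W ⧸ A) * (x : W ⧸ A) ^ (-i) = 1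
    change (x : W ⧸ A) ^ i = (y : W ⧸ A) at hi
    rw [← hi, ← zpow_add, add_neg_cancel, zpow_zero]

lemma nilp_sub {W : Type} [Group W] (A : Subgroup W) [A.Normal] [Group.IsNilpotent (W ⧸ A)]
    (S : Subgroup W) : Group.IsNilpotent (S ⧸ A.subgroupOf S) := by
  let f : S ⧸ A.subgroupOf S →* W ⧸ A := QuotientGroup.map _ _ S.subtype (le_refl _)
  have hf : Function.Injective f := by
    rw [injective_iff_map_eq_one]
    intro q
    induction q using QuotientGroup.induction_on with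
    | H z =>
      intro h
      have h1 : ((z : W) : W ⧸ A) = 1 := h
      rw [QuotientGroup.eq_one_iff] at h1 ⊢
      exact h1
  exact Group.nilpotent_of_mulEquiv (MonoidHom.ofInjective hf).symm

lemma nilp_quot {W : Type} [Group W] (A A' : Subgroup W) [A.Normal] [A'.Normal] (h : A ≤ A')
    [Group.IsNilpotent (W ⧸ A)] : Group.IsNilpotent (W ⧸ A') := by
  refine Group.nilpotent_of_surjective (QuotientGroup.map A A' (MonoidHom.id W) h) ?_
  intro q
  induction q using QuotientGroup.induction_on with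
  | H z => exact ⟨(z : W ⧸ A), rfl⟩

variable {Ω : Type} [Field Ω] [IsAlgClosed Ω] [CharZero Ω]

theorem nilp (n : ℕ) : ∀ (W : Type) [Group W] (A : Subgroup W) [A.Normal] [A.FiniteIndex]
    (V : Type) [AddCommGroup V] [Module Ω V] [FiniteDimensional Ω V] (ρ : Representation Ω W V),
    A.index = n → Group.IsNilpotent (W ⧸ A) → Diag ρ A →
      (fun w => LinearMap.trace Ω V (ρ w)) ∈ Sp (Wt ρ A) := by
  induction n using Nat.strong_induction_on with
  | _ n ih =>
  intro W _ A hAn hAf V _ _ _ ρ hn hnil h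
  letI := wact ρ A h
  have := finite_wsp h
  letI := Fintype.ofFinite {χ : A → Ω // wsp ρ A χ ≠ ⊥}
  have hmap : ∀ (w : W) (x : {χ : A → Ω // wsp ρ A χ ≠ ⊥}), ∀ v ∈ wsp ρ A x.1,
      ρ w v ∈ wsp ρ A (w • x).1 := fun w x v hv => map_wsp h w x.1 v hv
  have key := trace_blocks ρ (fun x : {χ : A → Ω // wsp ρ A χ ≠ ⊥} => wsp ρ A x.1) hmap
    (isInternal_wsp h)
  have hfun : (fun w => LinearMap.trace Ω V (ρ w)) = ∑ ω : MulAction.orbitRel.Quotient W
      {χ : A → Ω // wsp ρ A χ ≠ ⊥}, Ind (MulAction.stabilizer W (Quotient.out ω))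
        (fun s => LinearMap.trace Ω (wsp ρ A (Quotient.out ω).1)
          (blk ρ (fun x : {χ : A → Ω // wsp ρ A χ ≠ ⊥} => wsp ρ A x.1) hmap
            (Quotient.out ω) s)) := by
    ext w
    rw [key, Finset.sum_apply]
  rw [hfun]
  refine sum_mem fun ω _ => ?_
  generalize Quotient.out ω = x
  -- `A` is contained in the stabiliser
  have hAS : A ≤ MulAction.stabilizer W x := by
    intro a ha
    change a • x = x
    apply Subtype.ext
    change cj A a x.1 = x.1
    ext b
    obtain ⟨v, hv, hv0⟩ := Submodule.exists_mem_ne_zero_of_ne_bot x.2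
    rw [mem_wsp h] at hv
    have h1 := map_wsp h a x.1 v ((mem_wsp h _ _).2 hv)
    rw [mem_wsp h] at h1
    have h2 := h1 b
    rw [hv ⟨a, ha⟩, map_smul, hv b, smul_smul, smul_smul] at h2
    have h3 : x.1 ⟨a, ha⟩ ≠ 0 := by
      intro h3
      have h4 := hv ⟨a, ha⟩
      rw [h3, zero_smul] at h4
      apply hv0
      have h5 : v = ρ a⁻¹ (ρ a v) := by
        rw [← Module.End.mul_apply, ← map_mul, inv_mul_cancel, map_one]
        rfl
      rw [h5]
      change ρ a⁻¹ (ρ ((⟨a, ha⟩ : A) : W) v) = 0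
      rw [h4, map_zero]
    have h4 : (x.1 ⟨a, ha⟩ * x.1 b - cj A a x.1 b * x.1 ⟨a, ha⟩) • v = 0 := by
      rw [sub_smul, h2, sub_self]
    have h5 := sub_eq_zero.1 ((smul_eq_zero.1 h4).resolve_right hv0)
    rw [mul_comm] at h5
    exact (mul_right_cancel₀ h3 h5).symm
  have hSf : (MulAction.stabilizer W x).FiniteIndex := Subgroup.finiteIndex_of_le hAS
  have : Finite (W ⧸ MulAction.stabilizer W x) := Subgroup.finite_quotient_of_finiteIndex
  refine Ind_mem (P' := Wt (blk ρ (fun x : {χ : A → Ω // wsp ρ A χ ≠ ⊥} => wsp ρ A x.1) hmap x)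
    (A.subgroupOf (MulAction.stabilizer W x))) ?_ ?_
  · rintro K χ ⟨hAK, v, hv, h2⟩
    have hKf : K.FiniteIndex := Subgroup.finiteIndex_of_le hAK
    refine ⟨Subgroup.finite_quotient_of_finiteIndex, ?_, (v : V), ?_, ?_⟩
    · intro a ha
      exact ⟨⟨a, hAS ha⟩, hAK (Subgroup.mem_subgroupOf.2 ha), rfl⟩
    · intro h3
      exact hv (Subtype.ext h3)
    · intro a
      have h3 := h2 ⟨⟨a, hAS a.2⟩, Subgroup.mem_subgroupOf.2 a.2⟩
      have h4 := congrArg Subtype.val h3
      have h5 := upc_mk (MulAction.stabilizer W x) K χ ⟨a, hAS a.2⟩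
        (hAK (Subgroup.mem_subgroupOf.2 a.2)) ⟨⟨a, hAS a.2⟩, hAK (Subgroup.mem_subgroupOf.2 a.2), rfl⟩
      change _ = ((upc (MulAction.stabilizer W x) K χ ⟨a, _⟩ : Ωˣ) : Ω) • (v : V)
      rw [h5]
      exact h4
  · have hnt : Nontrivial (wsp ρ A x.1) := (Submodule.nontrivial_iff_ne_bot).2 x.2
    have hsc : ∀ (a : A.subgroupOf (MulAction.stabilizer W x)) (v : wsp ρ A x.1),
        blk ρ (fun x : {χ : A → Ω // wsp ρ A χ ≠ ⊥} => wsp ρ A x.1) hmap x a v =
          x.1 ⟨a, Subgroup.mem_subgroupOf.1 a.2⟩ • v := by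
      intro a v
      apply Subtype.ext
      exact (mem_wsp h _ _).1 v.2 ⟨_, Subgroup.mem_subgroupOf.1 a.2⟩
    obtain ⟨φ, hφ⟩ := exists_char (blk ρ (fun x : {χ : A → Ω // wsp ρ A χ ≠ ⊥} => wsp ρ A x.1)
      hmap x) (A.subgroupOf (MulAction.stabilizer W x))
      (fun a => x.1 ⟨a, Subgroup.mem_subgroupOf.1 a.2⟩) hsc
    have hsc' : ∀ (a : A.subgroupOf (MulAction.stabilizer W x)) (v : wsp ρ A x.1),
        blk ρ (fun x : {χ : A → Ω // wsp ρ A χ ≠ ⊥} => wsp ρ A x.1) hmap x a v =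
          (φ a : Ω) • v := fun a v => by rw [hsc, hφ]
    generalize hσ : blk ρ (fun x : {χ : A → Ω // wsp ρ A χ ≠ ⊥} => wsp ρ A x.1) hmap x = σ at hsc' ⊢
    change Representation Ω (MulAction.stabilizer W x) (wsp ρ A x.1) at σ
    have hnil' := nilp_sub A (MulAction.stabilizer W x)
    have hidx : (A.subgroupOf (MulAction.stabilizer W x)).index ≤ n := by
      rw [← hn, ← Subgroup.relIndex_mul_index hAS]
      exact Nat.le_mul_of_pos_right _ (Nat.pos_of_ne_zero hSf.index_ne_zero)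
    by_cases htop : A.subgroupOf (MulAction.stabilizer W x) = ⊤
    · have hmem : ∀ s : MulAction.stabilizer W x, s ∈ A.subgroupOf (MulAction.stabilizer W x) := by
        rw [htop]
        exact fun s => Subgroup.mem_top s
      let ψ : (⊤ : Subgroup (MulAction.stabilizer W x)) →* Ωˣ :=
        φ.comp ((⊤ : Subgroup (MulAction.stabilizer W x)).subtype.codRestrict
          (A.subgroupOf (MulAction.stabilizer W x)) (fun s => hmem s))
      have h1 : (fun s => LinearMap.trace Ω (wsp ρ A x.1) (σ s)) =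
          (Module.finrank Ω (wsp ρ A x.1)) • Ind ⊤ (fun k => (ψ k : Ω)) := by
        ext s
        rw [Pi.smul_apply, Ind_top _ (cls_hom _ ψ)]
        have h2 : σ s = (φ ⟨s, hmem s⟩ : Ω) • (1 : Module.End Ω (wsp ρ A x.1)) := by
          ext v
          rw [hsc' ⟨s, hmem s⟩ v]
          rfl
        rw [h2, map_smul, LinearMap.trace_one, nsmul_eq_mul, smul_eq_mul, mul_comm]
        rfl
      rw [h1]
      refine nsmul_mem (Sp_single ?_) _
      obtain ⟨v, hv⟩ := exists_ne (0 : wsp ρ A x.1)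
      exact ⟨le_top, v, hv, fun a => hsc' a v⟩
    · obtain ⟨A', z, hA'n, hlt, hA'⟩ := exists_enlarge _ htop
      have hA'f : A'.FiniteIndex := Subgroup.finiteIndex_of_le hlt.le
      have h1 : A'.index < n := lt_of_lt_of_le (Subgroup.index_strictAnti hlt) hidx
      have h2 := ih A'.index h1 (MulAction.stabilizer W x) A' (wsp ρ A x.1) σ rfl
        (nilp_quot _ A' hlt.le) (diag_enlarge σ _ φ hsc' A' z hA')
      exact Sp_mono (fun K χ => Wt_mono hlt.le K χ) h2

end Main

end Pool.Agent.V8H87.MB
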