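import Pool.Agent.V8H87.MB.Ass
import Pool.Agent.V8H87.EB.SN.Main

/-!
# Artin twists inside extensions with a symmetric Galois group
-/

set_option autoImplicit false

open scoped Classical

namespace Pool.Agent.V8H87.MB

set_option linter.unusedSectionVars false

open Module NumberField

section Grp

variable {G : Type} [Group G] [Fintype G]

/-- integral combinations of the permutation characters of the quasi-elementary subgroups -/
def Pm (G : Type) [Group G] [Fintype G] : AddSubgroup (G → ℤ) :=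
  AddSubgroup.closure {f | ∃ H : Subgroup G, EB.Br.QE H ∧ f = EB.Br.pc H}

lemma pc_mem (U : Subgroup G) : EB.Br.pc U ∈ Pm G := by
  have h1 : ∀ f ∈ Pm G, f * EB.Br.pc U ∈ Pm G := by
    intro f hf
    induction hf using AddSubgroup.closure_induction with
    | mem f hf =>
      obtain ⟨H, hH, rfl⟩ := hf
      have h1 : EB.Br.pc H * EB.Br.pc U =
          ∑ ω : MulAction.orbitRel.Quotient G ((G ⧸ H) × (G ⧸ U)),
            EB.Br.pc (MulAction.stabilizer G (Quotient.out ω)) := by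
        funext g
        rw [Pi.mul_apply, EB.Br.pc_mul, Finset.sum_apply]
      rw [h1]
      refine AddSubgroup.sum_mem _ fun ω _ => AddSubgroup.subset_closure ⟨_, ?_, rfl⟩
      obtain ⟨x, hx⟩ := QuotientGroup.mk_surjective (Quotient.out ω).1
      refine (hH.map (MulAut.conj x).toMonoidHom (MulAut.conj x).injective).of_le ?_
      intro g hg
      have h2 : g • (x : G ⧸ H) = (x : G ⧸ H) := by
        rw [hx]
        exact congrArg Prod.fst hg
      rw [MulAction.Quotient.smul_coe, smul_eq_mul, eq_comm, QuotientGroup.eq] at h2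
      exact ⟨x⁻¹ * (g * x), h2, by simp [mul_assoc]⟩
    | zero => rw [zero_mul]; exact zero_mem _
    | add a b _ _ ha hb => rw [add_mul]; exact add_mem ha hb
    | neg a _ ha => rw [neg_mul]; exact neg_mem ha
  have h2 := h1 1 EB.Br.solomon
  rwa [one_mul] at h2

/-- from the span to families -/
lemma Pm_families {z : G → ℤ} (hz : z ∈ Pm G) :
    ∃ (I J : Type) (_ : Fintype I) (_ : Fintype J) (H : I → Subgroup G) (H' : J → Subgroup G),
      (∀ i, EB.Br.QE (H i)) ∧ (∀ j, EB.Br.QE (H' j)) ∧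
      ∀ g, z g + ∑ i, EB.Br.pc (H i) g = ∑ j, EB.Br.pc (H' j) g := by
  induction hz using AddSubgroup.closure_induction with
  | mem f hf =>
    obtain ⟨K, hP, rfl⟩ := hf
    exact ⟨Empty, Unit, inferInstance, inferInstance, fun e => e.elim, fun _ => K,
      fun e => e.elim, fun _ => hP, fun w => by simp⟩
  | zero =>
    exact ⟨Empty, Empty, inferInstance, inferInstance, fun e => e.elim, fun e => e.elim,
      fun e => e.elim, fun e => e.elim, fun w => by simp⟩
  | add f g _ _ hf hg =>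
    obtain ⟨I, J, _, _, K, K', h1, h2, h3⟩ := hf
    obtain ⟨I₁, J₁, _, _, L, L', g1, g2, g3⟩ := hg
    refine ⟨I ⊕ I₁, J ⊕ J₁, inferInstance, inferInstance, Sum.elim K L, Sum.elim K' L', ?_, ?_, ?_⟩
    · rintro (i | i)
      · exact h1 i
      · exact g1 i
    · rintro (i | i)
      · exact h2 i
      · exact g2 i
    · intro w
      rw [Fintype.sum_sum_type, Fintype.sum_sum_type]
      have e1 := h3 w
      have e2 := g3 w
      simp only [Sum.elim_inl, Sum.elim_inr, Pi.add_apply]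
      rw [← e1, ← e2]
      ring
  | neg f _ hf =>
    obtain ⟨I, J, _, _, K, K', h1, h2, h3⟩ := hf
    refine ⟨J, I, inferInstance, inferInstance, K', K, h2, h1, fun w => ?_⟩
    rw [← h3 w, Pi.neg_apply]
    ring

variable {Ω : Type} [Field Ω] [CharZero Ω]

/-- the functions with values in the image of `ℤ` which come from `Pm` -/
lemma good_mem (hG : EB.GoodGroup G) (U : Subgroup G) (χ : U →* Ωˣ) :
    ∃ z ∈ Pm G, ∀ g, EB.ind U χ g = (z g : Ω) := by
  obtain ⟨ι, _, W, φ, m, h1, h2⟩ := hG Ω U χ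
  have h3 : ∀ i, ∃ z ∈ Pm G, ∀ g, EB.ind (W i) (φ i) g = (z g : Ω) := by
    intro i
    by_cases h : φ i = 1
    · refine ⟨EB.Br.pc (W i), pc_mem _, fun g => ?_⟩
      rw [h, EB.Br.ind_one]
    · refine ⟨EB.Br.pc ((φ i).ker.map (W i).subtype) - EB.Br.pc (W i),
        sub_mem (pc_mem _) (pc_mem _), fun g => ?_⟩
      rw [EB.ind_quad (W i) (φ i) (h1 i) h g, EB.Br.ind_one, EB.Br.ind_one, Pi.sub_apply]
      push_cast
      rfl
  choose z hz hz' using h3
  refine ⟨∑ i, m i • z i, sum_mem fun i _ => zsmul_mem (hz i) _, fun g => ?_⟩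
  rw [h2, Finset.sum_apply, Int.cast_sum]
  refine Finset.sum_congr rfl fun i _ => ?_
  rw [hz', Pi.smul_apply, smul_eq_mul, Int.cast_mul]

/-- comparison of the two formulas for induced characters -/
lemma Ind_eq (U : Subgroup G) (φ : U →* Ωˣ) (g : G) :
    Ind U (fun k => (φ k : Ω)) g = EB.ind U φ g := by
  have h := Ind_infl (MonoidHom.id G) Function.surjective_id U φ g
  exact h

lemma Ind_pc (U : Subgroup G) (g : G) :
    Ind U (fun _ => (1 : Ω)) g = (EB.Br.pc U g : Ω) := by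
  rw [← EB.Br.ind_one, ← Ind_eq]
  rfl

end Grp

section Defs

variable {G : Type} [Group G] {Ω : Type} [Field Ω]

/-- `f` is the character of a representation of `U` of finite dimension over `Ω`. -/
def IsChar (U : Subgroup G) (f : U → Ω) : Prop :=
  ∃ (V : Type) (_ : AddCommGroup V) (_ : Module Ω V) (_ : FiniteDimensional Ω V)
    (ρ : Representation Ω U V), f = fun u => LinearMap.trace Ω V (ρ u)

/-- The formalism of Artin: relations between induced characters give relations between the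
values. -/
def Formal (a : (Ω →+* ℂ) → (U : Subgroup G) → (U → Ω) → ℂ) : Prop :=
  ∀ (I J : Type) [Fintype I] [Fintype J] (U : I → Subgroup G) (f : ∀ i, U i → Ω)
    (U' : J → Subgroup G) (f' : ∀ j, U' j → Ω),
    (∀ i, IsChar (U i) (f i)) → (∀ j, IsChar (U' j) (f' j)) →
    (∀ g, ∑ i, Ind (U i) (f i) g = ∑ j, Ind (U' j) (f' j) g) →
    ∀ ι : Ω →+* ℂ, ∏ i, a ι (U i) (f i) = ∏ j, a ι (U' j) (f' j)

/-- The character induced from the function `f` on `U` is an integral combination of permutation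
characters (characters induced from the trivial characters of subgroups). -/
def IsPerm (U : Subgroup G) (f : U → Ω) : Prop :=
  ∃ (I : Type) (_ : Fintype I) (W : I → Subgroup G) (m : I → ℤ),
    ∀ g, Ind U f g = ∑ i, (m i : Ω) * Ind (W i) (fun _ => (1 : Ω)) g

end Defs

section Rep

variable {G : Type} [Group G] [Fintype G] {Ω : Type} [Field Ω] [CharZero Ω]

lemma isChar_one (U : Subgroup G) : IsChar U (fun _ => (1 : Ω)) := by
  refine ⟨Ω, inferInstance, inferInstance, inferInstance, 1, ?_⟩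
  funext u
  rw [MonoidHom.one_apply, LinearMap.trace_one, finrank_self, Nat.cast_one]

lemma cls_char {U : Subgroup G} {f : U → Ω} (hf : IsChar U f) : Cls U f := by
  obtain ⟨V, _, _, _, ρ, rfl⟩ := hf
  intro h x
  change LinearMap.trace Ω V (ρ (h⁻¹ * x * h)) = LinearMap.trace Ω V (ρ x)
  rw [map_mul ρ, map_mul ρ, LinearMap.trace_mul_comm, ← mul_assoc, ← map_mul ρ, mul_inv_cancel,
    map_one ρ, one_mul]

lemma isPerm_iff (U : Subgroup G) (f : U → Ω) :
    IsPerm U f ↔ ∃ z ∈ Pm G, ∀ g, Ind U f g = (z g : Ω) := by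
  constructor
  · rintro ⟨I, _, W, m, h⟩
    refine ⟨∑ i, m i • EB.Br.pc (W i), sum_mem fun i _ => zsmul_mem (pc_mem _) _, fun g => ?_⟩
    rw [h, Finset.sum_apply, Int.cast_sum]
    refine Finset.sum_congr rfl fun i _ => ?_
    rw [Ind_pc, Pi.smul_apply, smul_eq_mul, Int.cast_mul]
  · rintro ⟨z, hz, hz'⟩
    obtain ⟨I, J, _, _, H, H', -, -, hid⟩ := Pm_families hz
    refine ⟨I ⊕ J, inferInstance, Sum.elim H H', Sum.elim (fun _ => -1) (fun _ => 1),
      fun g => ?_⟩
    have h1 : z g = ∑ j, EB.Br.pc (H' j) g - ∑ i, EB.Br.pc (H i) g :=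
      eq_sub_of_add_eq (hid g)
    rw [hz', h1, Fintype.sum_sum_type]
    simp only [Sum.elim_inl, Sum.elim_inr, Ind_pc, Int.cast_sub, Int.cast_sum, Int.cast_neg,
      Int.cast_one, neg_mul, one_mul, Finset.sum_neg_distrib]
    ring

/-- every character of a representation of a subgroup, induced to `G` -/
lemma rep_mem [IsAlgClosed Ω] (hG : EB.GoodGroup G) (U : Subgroup G) {V : Type} [AddCommGroup V]
    [Module Ω V] [FiniteDimensional Ω V] (ρ : Representation Ω U V) :
    ∃ z ∈ Pm G, ∀ g, Ind U (fun u => LinearMap.trace Ω V (ρ u)) g = (z g : Ω) := by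
  have hD : Diag ρ (MonoidHom.id U).ker := by
    have hk : (MonoidHom.id U).ker = ⊥ := by
      rw [MonoidHom.ker_eq_bot_iff]
      exact Function.injective_id
    rw [hk]
    refine ⟨fun a ha => ?_, fun a ha b hb => ?_⟩
    · rw [Subgroup.mem_bot.1 ha, map_one]
      exact Module.End.isSemisimple_id
    · rw [Subgroup.mem_bot.1 ha, map_one]
      exact Commute.one_left _
  have h1 := brauer_rep ρ (MonoidHom.id U) Function.surjective_id hD
  have h2 : Ind U (fun u => LinearMap.trace Ω V (ρ u)) ∈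
      Sp (fun (_ : Subgroup G) (_ : _ →* Ωˣ) => True) :=
    Ind_mem (fun K χ _ => ⟨inferInstance, trivial⟩) h1
  have h3 : ∀ f ∈ Sp (Ω := Ω) (fun (_ : Subgroup G) (_ : _ →* Ωˣ) => True),
      ∃ z ∈ Pm G, ∀ g, f g = (z g : Ω) := by
    intro f hf
    induction hf using AddSubgroup.closure_induction with
    | mem f hf =>
      obtain ⟨K, χ, -, rfl⟩ := hf
      obtain ⟨z, hz, hz'⟩ := good_mem hG K χ
      exact ⟨z, hz, fun g => by rw [Ind_eq, hz']⟩
    | zero => exact ⟨0, zero_mem _, fun g => by simp⟩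
    | add a b _ _ ha hb =>
      obtain ⟨z, hz, hz'⟩ := ha
      obtain ⟨y, hy, hy'⟩ := hb
      exact ⟨z + y, add_mem hz hy, fun g => by
        rw [Pi.add_apply, Pi.add_apply, hz', hy', Int.cast_add]⟩
    | neg a _ ha =>
      obtain ⟨z, hz, hz'⟩ := ha
      exact ⟨-z, neg_mem hz, fun g => by rw [Pi.neg_apply, Pi.neg_apply, hz', Int.cast_neg]⟩
  exact h3 _ h2

lemma isPerm_rep [IsAlgClosed Ω] (hG : EB.GoodGroup G) (U : Subgroup G) {V : Type} [AddCommGroup V]
    [Module Ω V] [FiniteDimensional Ω V] (ρ : Representation Ω U V) :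
    IsPerm U (fun u => LinearMap.trace Ω V (ρ u)) := (isPerm_iff U _).2 (rep_mem hG U ρ)

end Rep

section Main

variable {F N : Type} [Field F] [NumberField F] [IsTotallyComplex F] [Field N] [NumberField N]
  [Algebra F N] [IsGalois F N] {E : Type} [Field E] [NumberField E] {Ω : Type} [Field Ω]
  [CharZero Ω] [Algebra E Ω]

/-- The equality of Q1 for `M₁|_K ⊗ ρ`, `K = N^U`, where `f` is the character of `ρ` and `d` its
degree, with a factor `e` in the field of coefficients `E` of `M₁`, and the values are not zero: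
`a ι = ι(e) (𝔦 ^ (d_K / 2) Δ_K) ^ (n d) b ι` for all embeddings `ι` of `Ω`. -/
def TwistQ1 (E : Type) [Field E] [Algebra E Ω] (n : ℕ)
    (a b : (Ω →+* ℂ) → (U : Subgroup (N ≃ₐ[F] N)) → (U → Ω) → ℂ) (U : Subgroup (N ≃ₐ[F] N))
    (f : U → Ω) (d : ℕ) : Prop :=
  (∀ ι, a ι U f ≠ 0 ∧ b ι U f ≠ 0) ∧
    ∀ x, IsDelta (IntermediateField.fixedField U) x → ∃ e : E, e ≠ 0 ∧ ∀ ι : Ω →+* ℂ,
      a ι U f = ι (algebraMap E Ω e) *
        (Complex.I ^ (finrank ℚ (IntermediateField.fixedField U) / 2) * x) ^ (n * d) * b ι U f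

/-- the main theorem -/
theorem all_twists
    (a b : (Ω →+* ℂ) → (U : Subgroup (N ≃ₐ[F] N)) → (U → Ω) → ℂ) (ha : Formal a) (hb : Formal b)
    (a₀ b₀ : (E →+* ℂ) → Subgroup (N ≃ₐ[F] N) → ℂ)
    (ha₀ : ∀ ι U, a ι U (fun _ => 1) = a₀ (ι.comp (algebraMap E Ω)) U)
    (hb₀ : ∀ ι U, b ι U (fun _ => 1) = b₀ (ι.comp (algebraMap E Ω)) U)
    (hne : ∀ ι U, EB.Br.QE U → a₀ ι U ≠ 0 ∧ b₀ ι U ≠ 0) (n : ℕ)
    (hQ : ∀ U, EB.Br.QE U → Q1 (IntermediateField.fixedField U) E n (fun ι => a₀ ι U)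
      (fun ι => b₀ ι U))
    (U : Subgroup (N ≃ₐ[F] N)) {V : Type} [AddCommGroup V] [Module Ω V] [FiniteDimensional Ω V]
    (ρ : Representation Ω U V) (hρ : IsPerm U (fun u => LinearMap.trace Ω V (ρ u))) :
    TwistQ1 E n a b U (fun u => LinearMap.trace Ω V (ρ u)) (finrank Ω V) := by
  unfold TwistQ1
  obtain ⟨f, hf⟩ : ∃ f : U → Ω, f = fun u => LinearMap.trace Ω V (ρ u) := ⟨_, rfl⟩
  have hfc : IsChar U f := ⟨V, inferInstance, inferInstance, inferInstance, ρ, hf⟩
  obtain ⟨z, hz, hz'⟩ := (isPerm_iff U _).1 hρ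
  obtain ⟨I, J, _, _, H, H', hH, hH', hid⟩ := Pm_families hz
  rw [← hf] at hz' ⊢
  -- degrees
  have hdeg : ∀ K : Subgroup (N ≃ₐ[F] N),
      finrank F (IntermediateField.fixedField K) = K.index := by
    intro K
    rw [IntermediateField.finrank_eq_fixingSubgroup_index,
      IntermediateField.fixingSubgroup_fixedField]
  have hpc1 : ∀ K : Subgroup (N ≃ₐ[F] N), EB.Br.pc K 1 = (K.index : ℤ) := by
    intro K
    unfold EB.Br.pc
    rw [Subgroup.index, Nat.cast_inj]
    exact Nat.card_congr (Equiv.subtypeUnivEquiv fun q => one_smul _ q)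
  have hz1 : z 1 = (U.index * finrank Ω V : ℕ) := by
    have h1 := hz' 1
    have h2 : Ind U f 1 = (U.index : Ω) * finrank Ω V := by
      have : Finite ((N ≃ₐ[F] N) ⧸ U) := inferInstance
      have := Fintype.ofFinite ((N ≃ₐ[F] N) ⧸ U)
      unfold Ind
      rw [finsum_eq_sum_of_fintype]
      have h3 : ∀ q : (N ≃ₐ[F] N) ⧸ U, ex U f ((Quotient.out q)⁻¹ * 1 * Quotient.out q) =
          (finrank Ω V : Ω) := by
        intro q
        have h4 : (Quotient.out q : N ≃ₐ[F] N)⁻¹ * 1 * Quotient.out q = 1 := by group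
        rw [h4, ex_pos _ U.one_mem, hf]
        change LinearMap.trace Ω V (ρ 1) = _
        rw [map_one, LinearMap.trace_one]
      rw [Finset.sum_congr rfl fun q _ => h3 q, Finset.sum_const, Finset.card_univ,
        ← Nat.card_eq_fintype_card, nsmul_eq_mul]
      rfl
    rw [h2] at h1
    have h5 : ((U.index * finrank Ω V : ℕ) : Ω) = ((z 1 : ℤ) : Ω) := by
      rw [← h1]
      push_cast
      rfl
    exact_mod_cast h5.symm
  have hdim : U.index * finrank Ω V + ∑ i, (H i).index = ∑ j, (H' j).index := by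
    have h1 := hid 1
    rw [hz1, Finset.sum_congr rfl fun i _ => hpc1 (H i),
      Finset.sum_congr rfl fun j _ => hpc1 (H' j)] at h1
    exact_mod_cast h1
  -- the relation
  have hrel : ∀ c : (Ω →+* ℂ) → (U : Subgroup (N ≃ₐ[F] N)) → (U → Ω) → ℂ, Formal c → ∀ ι,
      c ι U f * ∏ i, c ι (H i) (fun _ => 1) = ∏ j, c ι (H' j) (fun _ => 1) := by
    intro c hc ι
    have h1 := hc (Option I) J (fun o => o.elim U H)
      (fun o => match o with
        | none => f
        | some i => fun _ => 1) H' (fun _ _ => 1)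
      (by
        rintro (_ | i)
        · exact hfc
        · exact isChar_one _) (fun j => isChar_one _)
      (by
        intro g
        rw [Fintype.sum_option]
        change Ind U f g + ∑ i, Ind (H i) (fun _ => (1 : Ω)) g = _
        rw [hz', Finset.sum_congr rfl fun i _ => Ind_pc (H i) g,
          Finset.sum_congr rfl fun j _ => Ind_pc (H' j) g]
        have h2 := hid g
        exact_mod_cast congrArg (Int.cast (R := Ω)) h2) ι
    rw [Fintype.prod_option] at h1
    exact h1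
  have hAeq := hrel a ha
  have hBeq := hrel b hb
  have hAne : ∀ ι, a ι U f ≠ 0 := by
    intro ι h
    have h1 := hAeq ι
    rw [h, zero_mul] at h1
    refine Finset.prod_ne_zero_iff.2 (fun j _ => ?_) h1.symm
    rw [ha₀]
    exact (hne _ _ (hH' j)).1
  have hBne : ∀ ι, b ι U f ≠ 0 := by
    intro ι h
    have h1 := hBeq ι
    rw [h, zero_mul] at h1
    refine Finset.prod_ne_zero_iff.2 (fun j _ => ?_) h1.symm
    rw [hb₀]
    exact (hne _ _ (hH' j)).2
  refine ⟨fun ι => ⟨hAne ι, hBne ι⟩, ?_⟩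
  intro x hx
  -- the constant over the base field
  obtain ⟨y, hy⟩ := exists_delta F
  have hy0 := hy.ne_zero
  obtain ⟨c, hc⟩ : ∃ c : ℂ, c = Complex.I ^ (finrank ℚ F / 2) * y := ⟨_, rfl⟩
  have hc0 : c ≠ 0 := hc ▸ mul_ne_zero (pow_ne_zero _ Complex.I_ne_zero) hy0
  have hcK : ∀ (K : Subgroup (N ≃ₐ[F] N)) (x' : ℂ), IsDelta (IntermediateField.fixedField K) x' →
      ∃ q : ℚ, q ≠ 0 ∧ Complex.I ^ (finrank ℚ (IntermediateField.fixedField K) / 2) * x' =
        (q : ℂ) * c ^ K.index := by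
    intro K x' hx'
    obtain ⟨q, hq0, hq⟩ := delta_ext (F := F) hy hx'
    refine ⟨q, hq0, ?_⟩
    have h2 : finrank ℚ (IntermediateField.fixedField K) / 2 = finrank ℚ F / 2 * K.index := by
      rw [← finrank_mul_finrank ℚ F (IntermediateField.fixedField K), hdeg K]
      have h3 : finrank ℚ F = 2 * InfinitePlace.nrComplexPlaces F := IsTotallyComplex.finrank F
      rw [h3, mul_assoc, Nat.mul_div_cancel_left _ two_pos, Nat.mul_div_cancel_left _ two_pos]
    rw [hdeg K] at hq
    rw [h2, hq, hc, mul_pow, ← pow_mul]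
    ring
  -- each factor
  have hfac : ∀ K : Subgroup (N ≃ₐ[F] N), EB.Br.QE K → ∃ e : E, e ≠ 0 ∧ ∀ ι : Ω →+* ℂ,
      a ι K (fun _ => 1) = ι (algebraMap E Ω e) * (c ^ K.index) ^ n * b ι K (fun _ => 1) := by
    intro K hK
    obtain ⟨x', hx'⟩ := exists_delta (IntermediateField.fixedField K)
    obtain ⟨q, hq0, hq⟩ := hcK K x' hx'
    obtain ⟨e, he0, he⟩ := hQ K hK x' hx'
    refine ⟨e * (algebraMap ℚ E q) ^ n, mul_ne_zero he0
      (pow_ne_zero _ ((map_ne_zero _).2 hq0)), fun ι => ?_⟩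
    have h1 := he (ι.comp (algebraMap E Ω))
    have h4 : ι (algebraMap E Ω (algebraMap ℚ E q)) = (q : ℂ) := by simp
    rw [ha₀, hb₀, map_mul, map_pow, map_mul, map_pow, h4]
    change a₀ _ K = _ * b₀ _ K at h1
    rw [h1, hq, RingHom.comp_apply]
    ring
  choose e he0 he using hfac
  set ε : E := (∏ j, e (H' j) (hH' j)) / ∏ i, e (H i) (hH i) with hε
  have hden : ∏ i, e (H i) (hH i) ≠ 0 := Finset.prod_ne_zero_iff.2 fun i _ => he0 _ _
  have hε0 : ε ≠ 0 := div_ne_zero (Finset.prod_ne_zero_iff.2 fun i _ => he0 _ _) hden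
  have hfinal : ∀ ι : Ω →+* ℂ, a ι U f =
      ι (algebraMap E Ω ε) * c ^ (n * (U.index * finrank Ω V)) * b ι U f := by
    intro ι
    have h1 := hAeq ι
    have h2 := hBeq ι
    have h3 : ∏ i, a ι (H i) (fun _ => 1) = ι (algebraMap E Ω (∏ i, e (H i) (hH i))) *
        (c ^ (∑ i, (H i).index)) ^ n * ∏ i, b ι (H i) (fun _ => 1) := by
      rw [Finset.prod_congr rfl fun i _ => he (H i) (hH i) ι, Finset.prod_mul_distrib,
        Finset.prod_mul_distrib, map_prod, map_prod, Finset.prod_pow, Finset.prod_pow_eq_pow_sum]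
    have h4 : ∏ j, a ι (H' j) (fun _ => 1) = ι (algebraMap E Ω (∏ j, e (H' j) (hH' j))) *
        (c ^ (∑ j, (H' j).index)) ^ n * ∏ j, b ι (H' j) (fun _ => 1) := by
      rw [Finset.prod_congr rfl fun i _ => he (H' i) (hH' i) ι, Finset.prod_mul_distrib,
        Finset.prod_mul_distrib, map_prod, map_prod, Finset.prod_pow, Finset.prod_pow_eq_pow_sum]
    rw [h3, h4, ← h2, ← hdim] at h1
    have hb0 : ∏ i, b ι (H i) (fun _ => 1) ≠ 0 := by
      refine Finset.prod_ne_zero_iff.2 fun i _ => ?_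
      rw [hb₀]
      exact (hne _ _ (hH i)).2
    have hd0 : ι (algebraMap E Ω (∏ i, e (H i) (hH i))) ≠ 0 :=
      (map_ne_zero ι).2 ((map_ne_zero _).2 hden)
    have hcn0 : (c ^ (∑ i, (H i).index)) ^ n ≠ 0 := pow_ne_zero _ (pow_ne_zero _ hc0)
    have h5 : ι (algebraMap E Ω ε) = ι (algebraMap E Ω (∏ j, e (H' j) (hH' j))) /
        ι (algebraMap E Ω (∏ i, e (H i) (hH i))) := by
      rw [hε, map_div₀, map_div₀]
    rw [h5]
    generalize (∏ i, b ι (H i) (fun _ => 1)) = b₁ at h1 hb0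
    generalize ι (algebraMap E Ω (∏ i, e (H i) (hH i))) = d₁ at h1 hd0 ⊢
    generalize ι (algebraMap E Ω (∏ j, e (H' j) (hH' j))) = d₂ at h1 ⊢
    rw [pow_add, mul_pow] at h1
    generalize (c ^ (∑ i, (H i).index)) ^ n = u at h1 hcn0
    rw [← pow_mul, mul_comm (U.index * finrank Ω V) n] at h1
    generalize c ^ (n * (U.index * finrank Ω V)) = v at h1 ⊢
    generalize a ι U f = A₁ at h1 ⊢
    generalize b ι U f = B₁ at h1 ⊢
    have h6 : (A₁ * d₁) * (u * b₁) = (d₂ * v * B₁) * (u * b₁) := by linear_combination h1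
    have h7 := mul_right_cancel₀ (mul_ne_zero hcn0 hb0) h6
    field_simp
    linear_combination h7
  clear_value ε
  obtain ⟨q, hq0, hq⟩ := hcK U x hx
  have hqE : algebraMap ℚ E q ≠ 0 := (map_ne_zero _).2 hq0
  refine ⟨ε / (algebraMap ℚ E q) ^ (n * finrank Ω V), div_ne_zero hε0 (pow_ne_zero _ hqE),
    fun ι => ?_⟩
  have h4 : ι (algebraMap E Ω (algebraMap ℚ E q)) = (q : ℂ) := by simp
  have hqC : (q : ℂ) ≠ 0 := by exact_mod_cast hq0
  rw [hfinal ι, hq, map_div₀, map_div₀, map_pow, map_pow, h4, mul_pow, ← pow_mul c]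
  have h5 : U.index * (n * finrank Ω V) = n * (U.index * finrank Ω V) := by ring
  rw [h5]
  field_simp

end Main

end Pool.Agent.V8H87.MB
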