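import Pool.Agent.V8H87.MB.Blocks

/-!
# Weights, and representations of groups which are abelian by nilpotent
-/

set_option autoImplicit false

open scoped Classical

namespace Pool.Agent.V8H87.MB

open Module

section Span

variable {W : Type} [Group W] {Ω : Type} [Field Ω]

/-- integral combinations of functions induced from linear characters in the class `P` -/
def Sp (P : (K : Subgroup W) → (K →* Ωˣ) → Prop) : AddSubgroup (W → Ω) :=
  AddSubgroup.closure {f | ∃ (K : Subgroup W) (χ : K →* Ωˣ), P K χ ∧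
    f = Ind K (fun k => (χ k : Ω))}

lemma Sp_single {P : (K : Subgroup W) → (K →* Ωˣ) → Prop} {K : Subgroup W} {χ : K →* Ωˣ}
    (h : P K χ) : Ind K (fun k => (χ k : Ω)) ∈ Sp P :=
  AddSubgroup.subset_closure ⟨K, χ, h, rfl⟩

lemma Sp_mono {P P' : (K : Subgroup W) → (K →* Ωˣ) → Prop} (h : ∀ K χ, P K χ → P' K χ) :
    Sp P ≤ Sp P' := by
  apply AddSubgroup.closure_mono
  rintro f ⟨K, χ, hP, hf⟩
  exact ⟨K, χ, h K χ hP, hf⟩

lemma cls_hom (K : Subgroup W) (χ : K →* Ωˣ) : Cls K (fun k => (χ k : Ω)) := by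
  intro h x
  change ((χ (h⁻¹ * x * h) : Ωˣ) : Ω) = χ x
  rw [map_mul, map_mul, map_inv, mul_comm, mul_inv_cancel_left]

/-- transport of a character -/
noncomputable def upc (H : Subgroup W) (K : Subgroup H) (χ : K →* Ωˣ) : K.map H.subtype →* Ωˣ :=
  χ.comp (K.equivMapOfInjective H.subtype H.subtype_injective).symm.toMonoidHom

lemma upc_mk (H : Subgroup W) (K : Subgroup H) (χ : K →* Ωˣ) (k : H) (hk : k ∈ K)
    (hk' : (k : W) ∈ K.map H.subtype) : upc H K χ ⟨k, hk'⟩ = χ ⟨k, hk⟩ := by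
  change χ _ = χ _
  congr 1
  change (K.equivMapOfInjective H.subtype H.subtype_injective).symm _ = _
  rw [MulEquiv.symm_apply_eq]
  exact Subtype.ext rfl

lemma Ind_mem {S : Subgroup W} [Finite (W ⧸ S)] {P : (K : Subgroup W) → (K →* Ωˣ) → Prop}
    {P' : (K : Subgroup S) → (K →* Ωˣ) → Prop} (h : ∀ K χ, P' K χ → Finite (S ⧸ K) ∧
      P (K.map S.subtype) (upc S K χ)) {f : S → Ω} (hf : f ∈ Sp P') : Ind S f ∈ Sp P := by
  induction hf using AddSubgroup.closure_induction with
  | mem f hf =>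
    obtain ⟨K, χ, hP, rfl⟩ := hf
    obtain ⟨h1, h2⟩ := h K χ hP
    refine AddSubgroup.subset_closure ⟨K.map S.subtype, upc S K χ, h2, ?_⟩
    ext w
    exact Ind_trans S K (cls_hom K χ) w
  | zero =>
    have : Ind S (0 : S → Ω) = 0 := by
      ext w
      exact Ind_zero S w
    rw [this]
    exact zero_mem _
  | add a b _ _ ha hb =>
    have : Ind S (a + b) = Ind S a + Ind S b := by
      ext w
      exact Ind_add S a b w
    rw [this]
    exact add_mem ha hb
  | neg a _ ha =>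
    have : Ind S (-a) = - Ind S a := by
      ext w
      exact Ind_neg S a w
    rw [this]
    exact neg_mem ha

end Span

section Weights

variable {W : Type} [Group W] {Ω : Type} [Field Ω] {V : Type} [AddCommGroup V] [Module Ω V]
  (ρ : Representation Ω W V) (A : Subgroup W)

/-- `A` acts through commuting semisimple operators, i.e. the restriction to `A` is a sum of
characters -/
def Diag : Prop := (∀ a ∈ A, Module.End.IsSemisimple (ρ a)) ∧ ∀ a ∈ A, ∀ b ∈ A, Commute (ρ a) (ρ b)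

/-- the restriction of `χ` to `A` occurs in `V` -/
def Wt (K : Subgroup W) (χ : K →* Ωˣ) : Prop :=
  ∃ h : A ≤ K, ∃ v : V, v ≠ 0 ∧ ∀ a : A, ρ a v = (χ ⟨a, h a.2⟩ : Ω) • v

/-- the weight spaces -/
noncomputable def wsp (χ : A → Ω) : Submodule Ω V := ⨅ a : A, Module.End.maxGenEigenspace (ρ a) (χ a)

variable [FiniteDimensional Ω V]

variable {ρ A} in
lemma mem_wsp (h : Diag ρ A) (χ : A → Ω) (v : V) : v ∈ wsp ρ A χ ↔ ∀ a : A, ρ a v = χ a • v := by
  unfold wsp
  rw [Submodule.mem_iInf]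
  refine forall_congr' fun a => ?_
  rw [Module.End.IsFinitelySemisimple.maxGenEigenspace_eq_eigenspace
    (h.1 a a.2).isFinitelySemisimple,
    Module.End.mem_eigenspace_iff]

variable {ρ A} in
lemma isInternal_wsp [IsAlgClosed Ω] (h : Diag ρ A) :
    DirectSum.IsInternal (fun x : {χ : A → Ω // wsp ρ A χ ≠ ⊥} => wsp ρ A x.1) := by
  refine DirectSum.isInternal_ne_bot_iff.2 ?_
  refine DirectSum.isInternal_submodule_of_iSupIndep_of_iSup_eq_top ?_ ?_
  · exact Module.End.independent_iInf_maxGenEigenspace_of_forall_mapsTo (fun a : A => ρ (a : W))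
      (fun i j φ => Module.End.mapsTo_maxGenEigenspace_of_comm (h.2 j j.2 i i.2) φ)
  · exact Module.End.iSup_iInf_maxGenEigenspace_eq_top_of_forall_mapsTo (fun a : A => ρ (a : W))
      (fun i j φ => Module.End.mapsTo_maxGenEigenspace_of_comm (h.2 j j.2 i i.2) φ)
      (fun i => Module.End.iSup_maxGenEigenspace_eq_top _)

variable {ρ A} in
lemma finite_wsp (h : Diag ρ A) : Finite {χ : A → Ω // wsp ρ A χ ≠ ⊥} := by
  have := Module.End.independent_iInf_maxGenEigenspace_of_forall_mapsTo (fun a : A => ρ (a : W))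
      (fun i j φ => Module.End.mapsTo_maxGenEigenspace_of_comm (h.2 j j.2 i i.2) φ)
  exact (WellFoundedGT.finite_ne_bot_of_iSupIndep this)

variable [hA : A.Normal]

/-- conjugation of functions -/
def cj (w : W) (χ : A → Ω) : A → Ω := fun a => χ ⟨w⁻¹ * a * w, by simpa using hA.conj_mem a a.2 w⁻¹⟩

lemma cj_one (χ : A → Ω) : cj A 1 χ = χ := by
  ext a
  unfold cj
  congr 1
  exact Subtype.ext (by simp)

lemma cj_mul (u w : W) (χ : A → Ω) : cj A (u * w) χ = cj A u (cj A w χ) := by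
  ext a
  unfold cj
  congr 1
  exact Subtype.ext (by simp [mul_assoc])

variable {ρ A} in
lemma map_wsp (h : Diag ρ A) (w : W) (χ : A → Ω) (v : V) (hv : v ∈ wsp ρ A χ) :
    ρ w v ∈ wsp ρ A (cj A w χ) := by
  rw [mem_wsp h] at hv ⊢
  intro a
  have h1 : w⁻¹ * (a : W) * w ∈ A := by simpa using hA.conj_mem a a.2 w⁻¹
  have h2 := hv ⟨_, h1⟩
  change ρ (w⁻¹ * (a : W) * w) v = _ at h2
  have h3 : ρ (a : W) (ρ w v) = ρ w (ρ (w⁻¹ * (a : W) * w) v) := by
    rw [← Module.End.mul_apply, ← Module.End.mul_apply, ← map_mul, ← map_mul]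
    congr 2
    group
  rw [h3, h2, map_smul]
  rfl

variable {ρ A} in
lemma ne_wsp (h : Diag ρ A) (w : W) (χ : A → Ω) (hχ : wsp ρ A χ ≠ ⊥) :
    wsp ρ A (cj A w χ) ≠ ⊥ := by
  obtain ⟨v, hv, hv0⟩ := Submodule.exists_mem_ne_zero_of_ne_bot hχ
  intro h1
  have h2 := map_wsp h w χ v hv
  rw [h1, Submodule.mem_bot] at h2
  apply hv0
  have h3 : v = ρ w⁻¹ (ρ w v) := by
    rw [← Module.End.mul_apply, ← map_mul, inv_mul_cancel, map_one]
    rfl
  rw [h3, h2, map_zero]

/-- the action on the weights -/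
@[reducible] def wact (h : Diag ρ A) : MulAction W {χ : A → Ω // wsp ρ A χ ≠ ⊥} where
  smul w x := ⟨cj A w x.1, ne_wsp h w x.1 x.2⟩
  one_smul x := Subtype.ext (cj_one A x.1)
  mul_smul u w x := Subtype.ext (cj_mul A u w x.1)

end Weights

end Pool.Agent.V8H87.MB
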